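import Pool.Agent.Y736.RN.K

set_option autoImplicit false

/-! # Infinitely renormalizable parameters with subexponential geometry -/

namespace Pool.Agent.Y736.RN

open Complex Filter Topology Set Metric MeasureTheory Pool.Agent.H713R2
open N62a1eb23
open Pool.Agent.H712R2 (P P_succ P_one P_zero fc continuous_P)

variable {d : ℕ} {ψ : ℂ → ℂ}

/-- **No exceptional parameters with subexponential geometry, all degrees.** -/
theorem not_big_of_weak (hd : 2 ≤ d) (hψ : IsExteriorMap (multibrotSet d) ψ) {c : ℂ}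
    (hc : c ∈ multibrotSet d)
    (h : ∀ ε : ℝ, 0 < ε → {p : ℕ | ∃ (U : Set ℂ) (r : ℝ), 0 < r ∧
      (∀ n : ℕ, ball (P d (n * p) c) r ⊆ U) ∧
      ∀ z ∈ U, ∀ z' ∈ U, ‖(fc d c)^[p] z - (fc d c)^[p] z'‖ ≤ Real.exp (ε * p) * r}.Infinite) :
    ∀ κ : ℝ, 0 < κ → ¬ Big ψ κ c := by
  intro κ hκ hB
  have hdR : (1 : ℝ) < d := by exact_mod_cast (by omega : 1 < d)
  have hlogd : 0 < Real.log d := Real.log_pos hdR
  obtain ⟨ε, hε⟩ : ∃ ε, ε = Real.log d / (2 * κ) := ⟨_, rfl⟩
  have hε0 : 0 < ε := by rw [hε]; positivity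
  obtain ⟨k, hk⟩ := exists_nat_gt (2 * κ * Real.log 4 / Real.log d)
  obtain ⟨p, ⟨U, r, hr, hball, hdiam⟩, hpk⟩ := (h ε hε0).exists_gt k
  rw [div_lt_iff₀ hlogd] at hk
  have h1 : (k : ℝ) < p := by exact_mod_cast hpk
  have hp0 : (0 : ℝ) ≤ p := p.cast_nonneg
  obtain ⟨C, hC⟩ : ∃ C, C = Real.exp (ε * p) := ⟨_, rfl⟩
  have hC1 : 1 ≤ C := by
    rw [hC]
    exact Real.one_le_exp (by positivity)
  rw [← hC] at hdiam
  have hlogC0 : 0 < Real.log (C + 3) := Real.log_pos (by linarith)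
  have hlogC : Real.log (C + 3) ≤ ε * p + Real.log 4 := by
    have h2 : C + 3 ≤ C * 4 := by linarith
    have h3 := Real.log_le_log (by linarith) h2
    rw [Real.log_mul (by linarith) (by norm_num)] at h3
    have h4 : Real.log C = ε * p := by rw [hC, Real.log_exp]
    linarith
  have hεκ : ε * κ = Real.log d / 2 := by
    rw [hε]
    field_simp
  refine not_fast hd hc (by linarith) (deriv_le' hr hball hdiam) (fast_of_big hd (by omega) hψ hκ
    hlogC0 ?_ hB isBounded_ball)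
  calc Real.log (C + 3) * κ ≤ (ε * p + Real.log 4) * κ := by gcongr
    _ = p * (ε * κ) + κ * Real.log 4 := by ring
    _ = p * (Real.log d / 2) + κ * Real.log 4 := by rw [hεκ]
    _ < p * Real.log d := by nlinarith

end Pool.Agent.Y736.RN
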