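import Mathlib

set_option autoImplicit false

open Set Metric MeasureTheory Complex

namespace Pool.Agent.Y736.RN

/-- A plane set of Hausdorff dimension less than one is totally disconnected. -/
theorem totallyDisconnected_of_dimH {S : Set ℂ} (h : dimH S < 1) : IsTotallyDisconnected S := by
  intro t ht hpre x hx y hy
  by_contra hne
  have hpos : 0 < dist y x := dist_pos.2 (Ne.symm hne)
  have h1 : dimH ((fun z : ℂ => dist z x) '' t) ≤ dimH S :=
    ((LipschitzWith.dist_left x).dimH_image_le t).trans (dimH_mono ht)
  have h2 : Icc 0 (dist y x) ⊆ (fun z : ℂ => dist z x) '' t := by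
    have := (hpre.image (fun z : ℂ => dist z x) (by fun_prop)).Icc_subset
      (mem_image_of_mem _ hx) (mem_image_of_mem _ hy)
    simpa using this
  have h3 : dimH (Icc 0 (dist y x)) = 1 := by
    rw [Real.dimH_of_nonempty_interior]
    · simp
    · rw [interior_Icc]
      exact nonempty_Ioo.2 hpos
  have h4 := (dimH_mono h2).trans h1
  rw [h3] at h4
  exact absurd h (not_lt.2 h4)

/-- A plane set of Hausdorff dimension less than two has measure zero. -/
theorem volume_zero_of_dimH {S : Set ℂ} (h : dimH S < 2) : volume S = 0 := by
  have hL : LipschitzWith 1 (Complex.measurableEquivPi : ℂ → (Fin 2 → ℝ)) := by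
    refine LipschitzWith.of_dist_le_mul fun z w => ?_
    rw [dist_pi_le_iff (by positivity)]
    intro i
    have hre : |z.re - w.re| ≤ dist z w := by
      rw [Complex.dist_eq, ← Complex.sub_re]; exact Complex.abs_re_le_norm _
    have him : |z.im - w.im| ≤ dist z w := by
      rw [Complex.dist_eq, ← Complex.sub_im]; exact Complex.abs_im_le_norm _
    fin_cases i
    · simpa [Real.dist_eq] using hre
    · simpa [Real.dist_eq] using him
  have h1 : dimH (Complex.measurableEquivPi '' S) < 2 := (hL.dimH_image_le S).trans_lt h
  have h2 : (volume : Measure (Fin 2 → ℝ)) (Complex.measurableEquivPi '' S) = 0 := by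
    rw [← hausdorffMeasure_pi_real]
    have := hausdorffMeasure_of_dimH_lt (d := 2) (s := Complex.measurableEquivPi '' S)
      (by simpa using h1)
    simpa using this
  have h3 := Complex.volume_preserving_equiv_pi.measure_preimage_equiv (Complex.measurableEquivPi '' S)
  rw [preimage_image_eq _ Complex.measurableEquivPi.injective] at h3
  rw [h3, h2]

end Pool.Agent.Y736.RN
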