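import Pool.Agent.Y736.RN.Stm
import Pool.Agent.H712R2.MultiBott

set_option autoImplicit false

/-! # Renormalizable parameters: iterates -/

namespace Pool.Agent.Y736.RN

open Filter Topology Set Metric MeasureTheory Pool.Agent.H712R2

theorem contDiff_it (d m : ℕ) : ContDiff ℂ ⊤ (fun q : ℂ × ℂ => (fc d q.1)^[m] q.2) := by
  induction m with
  | zero => exact contDiff_snd
  | succ m ih =>
    have h : (fun q : ℂ × ℂ => (fc d q.1)^[m + 1] q.2) =
        fun q : ℂ × ℂ => ((fc d q.1)^[m] q.2) ^ d + q.1 := by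
      funext q
      rw [Function.iterate_succ_apply']
      rfl
    rw [h]
    exact (ih.pow d).add contDiff_fst

theorem cont_it (d m : ℕ) : Continuous (fun q : ℂ × ℂ => (fc d q.1)^[m] q.2) :=
  (contDiff_it d m).continuous

theorem cont_it_y (d m : ℕ) (c : ℂ) : Continuous ((fc d c)^[m]) :=
  (cont_it d m).comp (Continuous.prodMk continuous_const continuous_id)

theorem diff_it_y (d m : ℕ) (c : ℂ) : Differentiable ℂ ((fc d c)^[m]) :=
  ((contDiff_it d m).differentiable (by simp)).comp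
    ((differentiable_const c).prodMk differentiable_id)

theorem diff_it_c (d m : ℕ) (y : ℂ) : Differentiable ℂ (fun c => (fc d c)^[m] y) :=
  ((contDiff_it d m).differentiable (by simp)).comp
    (differentiable_id.prodMk (differentiable_const y))

theorem it_eq_P (d m : ℕ) (c : ℂ) : (fc d c)^[m] 0 = P d m c := rfl

theorem deriv_it_ne {d : ℕ} (hd : 2 ≤ d) {c y w : ℂ} {m : ℕ} (h : (fc d c)^[m] y = w)
    (hw : ∀ k, 1 ≤ k → k ≤ m → P d k c ≠ w) : deriv ((fc d c)^[m]) y ≠ 0 := by
  have key : ∀ n, n ≤ m → deriv ((fc d c)^[n]) y ≠ 0 := by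
    intro n
    induction n with
    | zero =>
      intro _
      simp
    | succ n ih =>
      intro hn
      have h1 : deriv ((fc d c)^[n + 1]) y =
          (d * ((fc d c)^[n] y) ^ (d - 1)) * deriv ((fc d c)^[n]) y := by
        have h2 : (fc d c)^[n + 1] = fun y => ((fc d c)^[n] y) ^ d + c := by
          funext y
          rw [Function.iterate_succ_apply']
          rfl
        rw [h2]
        have h3 : HasDerivAt (fun y => ((fc d c)^[n] y) ^ d + c)
            ((d : ℂ) * ((fc d c)^[n] y) ^ (d - 1) * deriv ((fc d c)^[n]) y) y :=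
          (((diff_it_y d n c) y).hasDerivAt.pow d).add_const c
        exact h3.deriv
      rw [h1]
      refine mul_ne_zero (mul_ne_zero (by exact_mod_cast (by omega : d ≠ 0)) (pow_ne_zero _ ?_))
        (ih (by omega))
      intro h0
      apply hw (m - n) (by omega) (by omega)
      rw [← h, ← it_eq_P, ← h0, ← Function.iterate_add_apply]
      congr 2
      omega
  exact key m le_rfl

/-- the critical orbit as a polynomial in the parameter -/
noncomputable def Q (d : ℕ) : ℕ → Polynomial ℂ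
  | 0 => 0
  | m + 1 => Q d m ^ d + Polynomial.X

theorem Q_eval (d m : ℕ) (c : ℂ) : (Q d m).eval c = P d m c := by
  induction m with
  | zero => simp [Q, P_zero]
  | succ m ih => simp [Q, P_succ, ih]

theorem P_big {d : ℕ} (hd : 2 ≤ d) {m : ℕ} (hm : 1 ≤ m) {c : ℂ} (hc : 2 ≤ ‖c‖) :
    ‖c‖ ≤ ‖P d m c‖ := by
  induction m, hm using Nat.le_induction with
  | base => rw [P_one hd]
  | succ m hm ih =>
    rw [P_succ]
    have h1 : ‖P d m c ^ d‖ - ‖c‖ ≤ ‖P d m c ^ d + c‖ := by
      have := norm_sub_norm_le (P d m c ^ d) (-c)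
      rwa [norm_neg, sub_neg_eq_add] at this
    have h2 : ‖c‖ ^ 2 ≤ ‖P d m c ^ d‖ := by
      rw [norm_pow]
      calc ‖c‖ ^ 2 ≤ ‖P d m c‖ ^ 2 := by gcongr
        _ ≤ ‖P d m c‖ ^ d := pow_le_pow_right₀ (by linarith) hd
    nlinarith

theorem finite_E {d : ℕ} (hd : 2 ≤ d) (w : ℂ) (N : ℕ) :
    {c : ℂ | ∃ k, 1 ≤ k ∧ k ≤ N ∧ P d k c = w}.Finite := by
  have h1 : {c : ℂ | ∃ k, 1 ≤ k ∧ k ≤ N ∧ P d k c = w} ⊆
      ⋃ k ∈ Finset.Icc 1 N, {c : ℂ | (Q d k - Polynomial.C w).IsRoot c} := by
    rintro c ⟨k, h1, h2, h3⟩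
    simp only [mem_iUnion]
    refine ⟨k, Finset.mem_Icc.2 ⟨h1, h2⟩, ?_⟩
    simp [Polynomial.IsRoot, Q_eval, h3]
  refine Set.Finite.subset ?_ h1
  apply Set.Finite.biUnion (Finset.finite_toSet _)
  intro k hk
  apply Polynomial.finite_setOfPred_isRoot
  intro h0
  have h2 : ∀ c, P d k c = w := by
    intro c
    have := congrArg (Polynomial.eval c) h0
    simp only [Polynomial.eval_sub, Polynomial.eval_C, Polynomial.eval_zero, Q_eval] at this
    exact sub_eq_zero.1 this
  have h3 := P_big hd (Finset.mem_Icc.1 hk).1 (c := ((‖w‖ + 2 : ℝ) : ℂ)) (by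
    rw [Complex.norm_real, Real.norm_eq_abs, abs_of_nonneg (by positivity)]
    linarith [norm_nonneg w])
  rw [h2, Complex.norm_real, Real.norm_eq_abs, abs_of_nonneg (by positivity)] at h3
  linarith

end Pool.Agent.Y736.RN
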