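import Pool.Agent.Y736.RN.A

set_option autoImplicit false

/-! # Renormalizable parameters: the trapped preimages -/

namespace Pool.Agent.Y736.RN

open Filter Topology Set Metric MeasureTheory Pool.Agent.H712R2

/-- the trapped preimages of `w` of order `j` -/
def YY (d p : ℕ) (V : Set ℂ) (w : ℂ) (j : ℕ) (c : ℂ) : Set ℂ :=
  {y : ℂ | (∀ i < j, (fc d c)^[p * i] y ∈ V) ∧ (fc d c)^[p * j] y = w}

/-- the trapped region -/
def OO (d p : ℕ) (V : Set ℂ) (j : ℕ) : Set (ℂ × ℂ) :=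
  {q | ∀ i < j, (fc d q.1)^[p * i] q.2 ∈ V}

theorem isOpen_OO (d p : ℕ) {V : Set ℂ} (hV : IsOpen V) (j : ℕ) : IsOpen (OO d p V j) := by
  have h : OO d p V j = ⋂ i ∈ Finset.range j, (fun q : ℂ × ℂ => (fc d q.1)^[p * i] q.2) ⁻¹' V := by
    ext q
    simp [OO]
  rw [h]
  exact isOpen_biInter_finset fun i _ => hV.preimage (cont_it d (p * i))

theorem YY_eq (d p : ℕ) (V : Set ℂ) (w : ℂ) (j : ℕ) (c : ℂ) :
    YY d p V w j c = {y : ℂ | (c, y) ∈ OO d p V j ∧ (fc d c)^[p * j] y - w = 0} := by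
  ext y
  simp [YY, OO, sub_eq_zero]

theorem big_it {d : ℕ} (hd : 2 ≤ d) {c y : ℂ} (hy : 2 + ‖c‖ ≤ ‖y‖) (m : ℕ) :
    ‖y‖ ≤ ‖(fc d c)^[m] y‖ := by
  induction m with
  | zero => exact le_rfl
  | succ m ih =>
    rw [Function.iterate_succ_apply']
    obtain ⟨z, hz⟩ : ∃ z, z = (fc d c)^[m] y := ⟨_, rfl⟩
    rw [← hz] at ih ⊢
    show ‖y‖ ≤ ‖z ^ d + c‖
    have h0 := norm_nonneg c
    have h1 : ‖z ^ d‖ - ‖c‖ ≤ ‖z ^ d + c‖ := by
      have := norm_sub_norm_le (z ^ d) (-c)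
      rwa [norm_neg, sub_neg_eq_add] at this
    have h2 : ‖z‖ ^ 2 ≤ ‖z ^ d‖ := by
      rw [norm_pow]
      exact pow_le_pow_right₀ (by linarith) hd
    nlinarith

theorem ev_ne {d : ℕ} (hd : 2 ≤ d) (c y₀ w : ℂ) (m : ℕ) :
    ∀ᶠ y in 𝓝[≠] y₀, (fc d c)^[m] y ≠ w := by
  have han : AnalyticOnNhd ℂ ((fc d c)^[m]) univ := fun z _ =>
    (diff_it_y d m c).analyticAt z
  rcases (han y₀ trivial).eventually_eq_or_eventually_ne (g := fun _ => w) analyticAt_const with h | h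
  · exfalso
    have h1 := han.eq_of_eventuallyEq (g := fun _ => w) (fun z _ => analyticAt_const) h
    have h2 := big_it hd (c := c) (y := ((2 + ‖c‖ + ‖w‖ : ℝ) : ℂ)) (by
      rw [Complex.norm_real, Real.norm_eq_abs, abs_of_nonneg (by positivity)]
      linarith [norm_nonneg w]) m
    rw [congrFun h1, Complex.norm_real, Real.norm_eq_abs, abs_of_nonneg (by positivity)] at h2
    linarith [norm_nonneg c]
  · exact h

/-- zeros persist -/
theorem persist {d p : ℕ} (hd : 2 ≤ d) {V : Set ℂ} (hV : IsOpen V) {w ĉ : ℂ} {j : ℕ}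
    (h1 : ∀ i < j, P d (p * i) ĉ ∈ V) (h2 : P d (p * j) ĉ = w) {ε : ℝ} (hε : 0 < ε) :
    ∀ᶠ c in 𝓝 ĉ, ∃ y, ‖y‖ < ε ∧ y ∈ YY d p V w j c := by
  have hO : OO d p V j ∈ 𝓝 (ĉ, (0 : ℂ)) := (isOpen_OO d p hV j).mem_nhds h1
  rw [nhds_prod_eq] at hO
  obtain ⟨N, hN, T, hT, hNT⟩ := mem_prod_iff.1 hO
  obtain ⟨t, ht, hTt⟩ := Metric.mem_nhds_iff.1 hT
  have h3 := ev_ne hd ĉ 0 w (p * j)
  rw [eventually_nhdsWithin_iff, Metric.eventually_nhds_iff] at h3
  obtain ⟨s, hs, h3⟩ := h3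
  obtain ⟨r, hr⟩ : ∃ r, r = min (min (t / 2) (s / 2)) (ε / 2) := ⟨_, rfl⟩
  have hr0 : 0 < r := by rw [hr]; positivity
  have hrt : r < t := by
    have := min_le_left (min (t / 2) (s / 2)) (ε / 2)
    have := min_le_left (t / 2) (s / 2)
    rw [hr]; linarith
  have hrs : r < s := by
    have := min_le_left (min (t / 2) (s / 2)) (ε / 2)
    have := min_le_right (t / 2) (s / 2)
    rw [hr]; linarith
  have hrε : r < ε := by
    have := min_le_right (min (t / 2) (s / 2)) (ε / 2)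
    rw [hr]; linarith
  have hsph : ∀ y ∈ sphere (0 : ℂ) r, (fc d ĉ)^[p * j] y ≠ w := by
    intro y hy
    rw [mem_sphere_zero_iff_norm] at hy
    apply h3 (by rw [dist_zero_right, hy]; exact hrs)
    intro h0
    rw [mem_singleton_iff] at h0
    rw [h0, norm_zero] at hy
    linarith
  obtain ⟨y₁, hy₁, hmin⟩ := (isCompact_sphere (0 : ℂ) r).exists_isMinOn
    (NormedSpace.sphere_nonempty.2 hr0.le)
    (f := fun y => ‖(fc d ĉ)^[p * j] y - w‖)
    (((cont_it_y d (p * j) ĉ).sub continuous_const).norm.continuousOn)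
  obtain ⟨m₀, hm₀⟩ : ∃ m₀, m₀ = ‖(fc d ĉ)^[p * j] y₁ - w‖ := ⟨_, rfl⟩
  have hm0 : 0 < m₀ := by
    rw [hm₀]
    exact norm_pos_iff.2 (sub_ne_zero.2 (hsph _ hy₁))
  have hmin' : ∀ y ∈ sphere (0 : ℂ) r, m₀ ≤ ‖(fc d ĉ)^[p * j] y - w‖ := by
    intro y hy
    rw [hm₀]
    exact hmin hy
  -- uniform closeness
  have hun : ∀ᶠ c in 𝓝 ĉ, ∀ y ∈ closedBall (0 : ℂ) r,
      ‖(fc d c)^[p * j] y - (fc d ĉ)^[p * j] y‖ < m₀ / 4 := by
    have hopen : IsOpen {q : ℂ × ℂ | ‖(fc d q.1)^[p * j] q.2 - (fc d ĉ)^[p * j] q.2‖ < m₀ / 4} := by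
      refine isOpen_lt ?_ continuous_const
      exact ((cont_it d (p * j)).sub ((cont_it_y d (p * j) ĉ).comp continuous_snd)).norm
    obtain ⟨u, v, hu, hv, hsu, htv, huv⟩ := generalized_tube_lemma (isCompact_singleton (x := ĉ))
      (isCompact_closedBall (0 : ℂ) r) hopen (by
        rintro ⟨a, b⟩ ⟨ha, hb⟩
        rw [mem_singleton_iff] at ha
        simp only [mem_ofPred_eq]
        have ha' : a = ĉ := ha
        rw [ha', sub_self, norm_zero]
        positivity)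
    filter_upwards [hu.mem_nhds (hsu rfl)] with c hc y hy
    exact huv (show (c, y) ∈ u ×ˢ v from ⟨hc, htv hy⟩)
  filter_upwards [hun, hN] with c hc hcN
  have hw0 : ‖w - (fc d c)^[p * j] 0‖ < m₀ / 4 := by
    have := hc 0 (mem_closedBall_self hr0.le)
    rw [it_eq_P d (p * j) ĉ, h2, norm_sub_rev] at this
    exact this
  have h4 : ball ((fc d c)^[p * j] 0) (m₀ / 2 / 2) ⊆ (fc d c)^[p * j] '' closedBall 0 r := by
    apply DiffContOnCl.ball_subset_image_closedBall (diff_it_y d (p * j) c).diffContOnCl hr0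
    · intro y hy
      have h5 := hmin' y hy
      have h6 := hc y (sphere_subset_closedBall hy)
      have h7 : (fc d ĉ)^[p * j] y - w = ((fc d c)^[p * j] y - (fc d c)^[p * j] 0) -
          ((fc d c)^[p * j] y - (fc d ĉ)^[p * j] y) - (w - (fc d c)^[p * j] 0) := by ring
      have h8 : ‖(fc d ĉ)^[p * j] y - w‖ ≤ ‖(fc d c)^[p * j] y - (fc d c)^[p * j] 0‖ +
          ‖(fc d c)^[p * j] y - (fc d ĉ)^[p * j] y‖ + ‖w - (fc d c)^[p * j] 0‖ := by
        rw [h7]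
        exact (norm_sub_le _ _).trans (add_le_add (norm_sub_le _ _) le_rfl)
      linarith
    · have h5 := ev_ne hd c 0 ((fc d c)^[p * j] 0) (p * j)
      exact (h5.frequently).filter_mono nhdsWithin_le_nhds
  obtain ⟨y, hy1, hy2⟩ := h4 (show w ∈ ball _ _ by
    rw [mem_ball, dist_eq_norm]
    linarith)
  rw [mem_closedBall_zero_iff] at hy1
  refine ⟨y, by linarith, ?_, hy2⟩
  exact hNT (show (c, y) ∈ N ×ˢ T from ⟨hcN, hTt (by rw [mem_ball_zero_iff]; linarith)⟩)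

/-- the frontier condition is stable -/
theorem stab {d p : ℕ} {V : Set ℂ} (hVb : Bornology.IsBounded V) {c₁ : ℂ}
    (h : ∀ z ∈ frontier V, (fc d c₁)^[p] z ∉ closure V) :
    ∃ δ : ℝ, 0 < δ ∧ ∀ c ∈ ball c₁ δ, ∀ z ∈ frontier V, (fc d c)^[p] z ∉ closure V := by
  have hopen : IsOpen {q : ℂ × ℂ | (fc d q.1)^[p] q.2 ∉ closure V} :=
    isClosed_closure.isOpen_compl.preimage (cont_it d p)
  have hc : IsCompact (frontier V) :=
    Metric.isCompact_of_isClosed_isBounded isClosed_frontier (hVb.closure.subset frontier_subset_closure)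
  obtain ⟨u, v, hu, hv, hsu, htv, huv⟩ := generalized_tube_lemma (isCompact_singleton (x := c₁))
    hc hopen (by
      rintro ⟨a, b⟩ ⟨ha, hb⟩
      have ha' : a = c₁ := ha
      show (fc d a)^[p] b ∉ closure V
      rw [ha']
      exact h b hb)
  obtain ⟨δ, hδ, hball⟩ := Metric.isOpen_iff.1 hu c₁ (hsu rfl)
  exact ⟨δ, hδ, fun c hc z hz => huv (show (c, z) ∈ u ×ˢ v from ⟨hball hc, htv hz⟩)⟩

/-- compactness of the trapped zeros -/
theorem compact_zeros {d p : ℕ} {V : Set ℂ} (hVo : IsOpen V) (hVb : Bornology.IsBounded V)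
    {B : Set ℂ} (hfr : ∀ c ∈ B, ∀ z ∈ frontier V, (fc d c)^[p] z ∉ closure V)
    {w : ℂ} (hw : w ∈ V) {j : ℕ} (hj : 1 ≤ j) {c₀ : ℂ} {r : ℝ} (hr : closedBall c₀ r ⊆ B) :
    IsCompact {q : ℂ × ℂ | q ∈ OO d p V j ∧ q.1 ∈ closedBall c₀ r ∧
      (fc d q.1)^[p * j] q.2 - w = 0} := by
  have heq : {q : ℂ × ℂ | q ∈ OO d p V j ∧ q.1 ∈ closedBall c₀ r ∧
      (fc d q.1)^[p * j] q.2 - w = 0} = (closedBall c₀ r ×ˢ closure V) ∩
      ((⋂ i ∈ Finset.range j, (fun q : ℂ × ℂ => (fc d q.1)^[p * i] q.2) ⁻¹' closure V) ∩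
        {q | (fc d q.1)^[p * j] q.2 = w}) := by
    ext ⟨c, y⟩
    simp only [OO, mem_ofPred_eq, mem_inter_iff, mem_prod, mem_iInter, Finset.mem_range,
      mem_preimage, sub_eq_zero]
    constructor
    · rintro ⟨h1, h2, h3⟩
      refine ⟨⟨h2, subset_closure ?_⟩, fun i hi => subset_closure (h1 i hi), h3⟩
      have := h1 0 (by omega)
      simpa using this
    · rintro ⟨⟨h1, h2⟩, h3, h4⟩
      refine ⟨?_, h1, h4⟩
      intro i hi
      by_contra hcon
      have hf : (fc d c)^[p * i] y ∈ frontier V := by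
        rw [hVo.frontier_eq]
        exact ⟨h3 i hi, hcon⟩
      apply hfr c (hr h1) _ hf
      rw [← Function.iterate_add_apply, show p + p * i = p * (i + 1) by ring]
      rcases Nat.lt_or_ge (i + 1) j with h5 | h5
      · exact h3 (i + 1) h5
      · rw [show i + 1 = j by omega, h4]
        exact subset_closure hw
  rw [heq]
  refine IsCompact.inter_right ((isCompact_closedBall _ _).prod ?_) ?_
  · exact Metric.isCompact_of_isClosed_isBounded isClosed_closure hVb.closure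
  · refine IsClosed.inter ?_ (isClosed_eq (cont_it d (p * j)) continuous_const)
    exact isClosed_biInter fun i _ => isClosed_closure.preimage (cont_it d (p * i))

end Pool.Agent.Y736.RN
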