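import Pool.Agent.Y736.RN.B

set_option autoImplicit false

/-! # Renormalizable parameters: counting -/

namespace Pool.Agent.Y736.RN

open Filter Topology Set Metric MeasureTheory Pool.Agent.H712R2

/-- at most `d` preimages -/
def Deg (d p : ℕ) (V : Set ℂ) (c : ℂ) : Prop :=
  ∀ w ∈ V, {z | z ∈ V ∧ (fc d c)^[p] z = w}.Finite ∧ {z | z ∈ V ∧ (fc d c)^[p] z = w}.ncard ≤ d

theorem tree {d p : ℕ} {V : Set ℂ} {c : ℂ} (hdeg : Deg d p V c) {w : ℂ} (hw : w ∈ V) (j : ℕ) :
    (YY d p V w j c).Finite ∧ (YY d p V w j c).ncard ≤ d ^ j := by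
  classical
  induction j with
  | zero =>
    have h : YY d p V w 0 c = {w} := by
      ext y
      simp [YY]
    rw [h]
    simp
  | succ j ih =>
    obtain ⟨hfin, hcard⟩ := ih
    have hV : ∀ y ∈ YY d p V w j c, y ∈ V := by
      rintro y ⟨h1, h2⟩
      rcases Nat.eq_zero_or_pos j with hj | hj
      · subst hj
        simp only [Nat.mul_zero, Function.iterate_zero, id_eq] at h2
        rw [h2]
        exact hw
      · have := h1 0 hj
        simpa using this
    have heq : YY d p V w (j + 1) c = ↑(hfin.toFinset.biUnion fun y' =>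
        if h : y' ∈ V then (hdeg y' h).1.toFinset else ∅) := by
      ext y
      simp only [Finset.coe_biUnion, Set.Finite.coe_toFinset, mem_iUnion, Finset.mem_coe]
      constructor
      · rintro ⟨h1, h2⟩
        have h3 : (fc d c)^[p] y ∈ YY d p V w j c := by
          refine ⟨fun i hi => ?_, ?_⟩
          · rw [← Function.iterate_add_apply, show p * i + p = p * (i + 1) by ring]
            exact h1 (i + 1) (by omega)
          · rw [← Function.iterate_add_apply, show p * j + p = p * (j + 1) by ring]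
            exact h2
        refine ⟨(fc d c)^[p] y, h3, ?_⟩
        rw [dif_pos (hV _ h3), Set.Finite.mem_toFinset]
        refine ⟨?_, rfl⟩
        have := h1 0 (by omega)
        simpa using this
      · rintro ⟨y', h3, h4⟩
        rw [dif_pos (hV _ h3), Set.Finite.mem_toFinset] at h4
        obtain ⟨h4, h5⟩ := h4
        obtain ⟨h6, h7⟩ := h3
        refine ⟨fun i hi => ?_, ?_⟩
        · rcases Nat.eq_zero_or_pos i with h8 | h8
          · subst h8
            simpa using h4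
          · have h9 := h6 (i - 1) (by omega)
            rw [← h5, ← Function.iterate_add_apply] at h9
            rwa [show p * (i - 1) + p = p * i by
              rw [← Nat.mul_succ]; congr 1; omega] at h9
        · rw [← h5, ← Function.iterate_add_apply] at h7
          rwa [show p * j + p = p * (j + 1) by ring] at h7
    rw [heq]
    refine ⟨Finset.finite_toSet _, ?_⟩
    rw [Set.ncard_coe_finset]
    have h1 : (hfin.toFinset.biUnion fun y' =>
        if h : y' ∈ V then (hdeg y' h).1.toFinset else ∅).card ≤ hfin.toFinset.card * d := by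
      apply Finset.card_biUnion_le_card_mul
      intro a ha
      rw [Set.Finite.mem_toFinset] at ha
      rw [dif_pos (hV _ ha), ← Set.ncard_eq_toFinset_card _ (hdeg a (hV a ha)).1]
      exact (hdeg a (hV a ha)).2
    rw [← Set.ncard_eq_toFinset_card _ hfin] at h1
    calc _ ≤ (YY d p V w j c).ncard * d := h1
      _ ≤ d ^ j * d := Nat.mul_le_mul_right _ hcard
      _ = d ^ (j + 1) := by ring

/-- the normalised product -/
noncomputable def BP (d p : ℕ) (V : Set ℂ) (w : ℂ) (j : ℕ) (R : ℝ) (c : ℂ) : ℂ :=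
  (∏ᶠ y ∈ YY d p V w j c, y) / (R : ℂ) ^ (YY d p V w j c).ncard

theorem local_B (hLP : S_LP) {d p : ℕ} (hd : 2 ≤ d) {V : Set ℂ} (hVo : IsOpen V)
    (hVb : Bornology.IsBounded V) {B : Set ℂ} (hBo : IsOpen B)
    (hfr : ∀ c ∈ B, ∀ z ∈ frontier V, (fc d c)^[p] z ∉ closure V)
    {w : ℂ} (hw : w ∈ V) {j : ℕ} (hj : 1 ≤ j) (R : ℝ) {c₀ : ℂ} (hc₀ : c₀ ∈ B)
    (hE : ∀ k, 1 ≤ k → k ≤ p * j → P d k c₀ ≠ w) :
    (∀ᶠ c in 𝓝 c₀, (YY d p V w j c).Finite ∧
      (YY d p V w j c).ncard = (YY d p V w j c₀).ncard) ∧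
    DifferentiableAt ℂ (BP d p V w j R) c₀ := by
  obtain ⟨r, hr, hrB⟩ := Metric.isOpen_iff.1 hBo c₀ hc₀
  have h1 := hLP (fun c y => (fc d c)^[p * j] y - w) (OO d p V j) c₀ (r / 2)
    ((contDiff_it d (p * j)).sub contDiff_const) (isOpen_OO d p hVo j) (half_pos hr)
    (compact_zeros hVo hVb hfr hw hj ((closedBall_subset_ball (half_lt_self hr)).trans hrB)) (by
      intro y _ hy
      have h2 : deriv (fun y => (fc d c₀)^[p * j] y - w) y = deriv ((fc d c₀)^[p * j]) y := by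
        simp
      rw [h2]
      exact deriv_it_ne hd (sub_eq_zero.1 hy) hE)
  simp only [← YY_eq] at h1
  obtain ⟨h1, h2⟩ := h1
  refine ⟨h1, ?_⟩
  have h3 : DifferentiableAt ℂ (fun c => (∏ᶠ y ∈ YY d p V w j c, y) /
      (R : ℂ) ^ (YY d p V w j c₀).ncard) c₀ := h2.div_const _
  refine h3.congr_of_eventuallyEq ?_
  filter_upwards [h1] with c hc
  unfold BP
  rw [hc.2]

theorem BP_le {d p : ℕ} {V : Set ℂ} {w : ℂ} {j : ℕ} (hj : 1 ≤ j) {R : ℝ} (hR : 0 < R)
    (hVR : ∀ y ∈ V, ‖y‖ ≤ R) (c : ℂ) : ‖BP d p V w j R c‖ ≤ 1 := by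
  have hYV : ∀ y ∈ YY d p V w j c, ‖y‖ ≤ R := by
    intro y hy
    apply hVR
    have := hy.1 0 hj
    simpa using this
  unfold BP
  by_cases hf : (YY d p V w j c).Finite
  · rw [finprod_mem_eq_finite_toFinset_prod _ hf, Set.ncard_eq_toFinset_card _ hf, norm_div,
      norm_prod, norm_pow, Complex.norm_real, Real.norm_eq_abs, abs_of_pos hR,
      div_le_one (by positivity)]
    rw [← Finset.prod_const]
    apply Finset.prod_le_prod (fun _ _ => norm_nonneg _)
    intro y hy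
    exact hYV y ((Set.Finite.mem_toFinset hf).1 hy)
  · have h1 : (∏ᶠ y ∈ YY d p V w j c, y) = 1 := by
      apply finprod_mem_eq_one_of_infinite
      intro hfin
      apply hf
      refine (hfin.union (Set.finite_singleton (1 : ℂ))).subset ?_
      intro y hy
      by_cases h : y = 1
      · exact Or.inr h
      · exact Or.inl ⟨hy, h⟩
    rw [h1, Set.Infinite.ncard hf]
    simp

theorem BP_ge {d p : ℕ} {V : Set ℂ} {w : ℂ} {j : ℕ} {R η : ℝ} (hη : 0 < η) (hηR : η ≤ R)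
    {c : ℂ} (hf : (YY d p V w j c).Finite) {N : ℕ} (hN : (YY d p V w j c).ncard ≤ N)
    (h : ∀ y ∈ YY d p V w j c, η ≤ ‖y‖) : (η / R) ^ N ≤ ‖BP d p V w j R c‖ := by
  have hR : 0 < R := hη.trans_le hηR
  have h0 : η / R ≤ 1 := (div_le_one hR).2 hηR
  refine (pow_le_pow_of_le_one (by positivity) h0 hN).trans ?_
  unfold BP
  rw [finprod_mem_eq_finite_toFinset_prod _ hf, Set.ncard_eq_toFinset_card _ hf, norm_div,
    norm_prod, norm_pow, Complex.norm_real, Real.norm_eq_abs, abs_of_pos hR, div_pow]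
  gcongr
  rw [← Finset.prod_const]
  apply Finset.prod_le_prod (fun _ _ => hη.le)
  intro y hy
  exact h y ((Set.Finite.mem_toFinset hf).1 hy)

theorem BP_small {d p : ℕ} {V : Set ℂ} {w : ℂ} {j : ℕ} (hj : 1 ≤ j) {R ε : ℝ} (hR : 0 < R)
    (hVR : ∀ y ∈ V, ‖y‖ ≤ R) {c : ℂ} (hf : (YY d p V w j c).Finite)
    {y : ℂ} (hy : y ∈ YY d p V w j c) (hyε : ‖y‖ < ε * R) : ‖BP d p V w j R c‖ < ε := by
  classical
  have hYV : ∀ y ∈ YY d p V w j c, ‖y‖ ≤ R := by
    intro y hy
    apply hVR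
    have := hy.1 0 hj
    simpa using this
  unfold BP
  rw [finprod_mem_eq_finite_toFinset_prod _ hf, Set.ncard_eq_toFinset_card _ hf, norm_div,
    norm_prod, norm_pow, Complex.norm_real, Real.norm_eq_abs, abs_of_pos hR,
    div_lt_iff₀ (by positivity)]
  have hmem : y ∈ hf.toFinset := (Set.Finite.mem_toFinset hf).2 hy
  rw [← Finset.mul_prod_erase _ _ hmem]
  have h1 : ∏ x ∈ hf.toFinset.erase y, ‖x‖ ≤ R ^ (hf.toFinset.erase y).card := by
    rw [← Finset.prod_const]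
    apply Finset.prod_le_prod (fun _ _ => norm_nonneg _)
    intro x hx
    exact hYV x ((Set.Finite.mem_toFinset hf).1 (Finset.mem_of_mem_erase hx))
  have h2 : hf.toFinset.card = (hf.toFinset.erase y).card + 1 := by
    rw [Finset.card_erase_of_mem hmem]
    have := Finset.card_pos.2 ⟨y, hmem⟩
    omega
  rw [h2, pow_succ]
  calc ‖y‖ * ∏ x ∈ hf.toFinset.erase y, ‖x‖ ≤ ‖y‖ * R ^ (hf.toFinset.erase y).card := by gcongr
    _ < ε * R * R ^ (hf.toFinset.erase y).card := by gcongr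
    _ = ε * (R ^ (hf.toFinset.erase y).card * R) := by ring

/-- **The counting lemma.** -/
theorem count (hLP : S_LP) (hJZ : S_JZ) {d p : ℕ} (hd : 2 ≤ d) (hp : 1 ≤ p) {V : Set ℂ}
    (hVo : IsOpen V) (hVb : Bornology.IsBounded V) {c₁ c' : ℂ} {δ : ℝ} (hδ : 0 < δ)
    (hfr : ∀ c ∈ ball c₁ δ, ∀ z ∈ frontier V, (fc d c)^[p] z ∉ closure V)
    (hdeg : Deg d p V c₁) (hc' : ‖c' - c₁‖ < δ / 16)
    (hesc : ∃ i, P d (p * i) c' ∉ closure V) {w : ℂ} (hw : w ∈ V)
    (hseg : ∀ c ∈ segment ℝ c₁ c', ∀ m, 1 ≤ m → P d m c ≠ w) :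
    ∃ (C : ℝ) (J : ℕ), ∀ j ≥ J,
      {c | c ∈ ball c₁ (δ / 16) ∧ (∀ i < j, P d (p * i) c ∈ V) ∧ P d (p * j) c = w}.Finite ∧
      ({c | c ∈ ball c₁ (δ / 16) ∧ (∀ i < j, P d (p * i) c ∈ V) ∧
        P d (p * j) c = w}.ncard : ℝ) ≤ C * (d : ℝ) ^ j := by
  obtain ⟨i₀, hi₀⟩ := hesc
  -- lower bound for the trapped preimages at `c'`
  obtain ⟨η₀, hη₀, hη₀'⟩ : ∃ η₀ > 0, ∀ y : ℂ, ‖y‖ < η₀ → (fc d c')^[p * i₀] y ∉ closure V := by
    have h1 : IsOpen {y | (fc d c')^[p * i₀] y ∉ closure V} :=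
      isClosed_closure.isOpen_compl.preimage (cont_it_y d _ _)
    obtain ⟨η, hη, h2⟩ := Metric.isOpen_iff.1 h1 0 hi₀
    exact ⟨η, hη, fun y hy => h2 (mem_ball_zero_iff.2 hy)⟩
  obtain ⟨R₀, hR₀⟩ := hVb.exists_norm_le
  obtain ⟨R, hRdef⟩ : ∃ R, R = max R₀ (max 1 (2 * η₀)) := ⟨_, rfl⟩
  have hR1 : 1 ≤ R := by rw [hRdef]; exact (le_max_left _ _).trans (le_max_right _ _)
  have hR : 0 < R := by linarith
  have hRη : 2 * η₀ ≤ R := by rw [hRdef]; exact (le_max_right _ _).trans (le_max_right _ _)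
  have hVR : ∀ y ∈ V, ‖y‖ ≤ R := fun y hy => (hR₀ y hy).trans (by rw [hRdef]; exact le_max_left _ _)
  have hq0 : 0 < η₀ / R := by positivity
  have hq1 : η₀ / R < 1 := by rw [div_lt_one hR]; linarith
  have hlog : 0 < Real.log (R / η₀) := Real.log_pos (by rw [one_lt_div hη₀]; linarith)
  have hlog2 : 0 < Real.log 2 := Real.log_pos (by norm_num)
  refine ⟨Real.log (R / η₀) / Real.log 2, i₀ + 1, fun j hj => ?_⟩
  have hj1 : 1 ≤ j := by omega
  have hpj : 1 ≤ p * j := Nat.mul_pos hp hj1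
  have hfinZ : {c | c ∈ ball c₁ (δ / 16) ∧ (∀ i < j, P d (p * i) c ∈ V) ∧
      P d (p * j) c = w}.Finite := by
    refine (finite_E hd w (p * j)).subset ?_
    rintro c ⟨_, _, h⟩
    exact ⟨p * j, hpj, le_rfl, h⟩
  refine ⟨hfinZ, ?_⟩
  have hsegB : ∀ c ∈ segment ℝ c₁ c', c ∈ ball c₁ δ := by
    intro c hc
    have h1 : segment ℝ c₁ c' ⊆ ball c₁ δ :=
      (convex_ball c₁ δ).segment_subset (mem_ball_self hδ) (by
        rw [mem_ball, dist_eq_norm]; linarith)
    exact h1 hc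
  -- the number of trapped preimages at `c'`
  have hcard : (YY d p V w j c').ncard ≤ d ^ j := by
    have h1 : ∀ c ∈ segment ℝ c₁ c', ContinuousWithinAt
        (fun c => (YY d p V w j c).ncard) (segment ℝ c₁ c') c := by
      intro c hc
      have h2 := (local_B hLP hd hVo hVb isOpen_ball hfr hw hj1 R (hsegB c hc)
        (fun k hk _ => hseg c hc k hk)).1
      have h3 : (fun c => (YY d p V w j c).ncard) =ᶠ[𝓝 c] fun _ => (YY d p V w j c).ncard := by
        filter_upwards [h2] with a ha using ha.2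
      exact (continuousAt_const.congr h3.symm).continuousWithinAt
    have h2 := (convex_segment c₁ c').isPreconnected.constant (f := fun c => (YY d p V w j c).ncard)
      h1 (left_mem_segment ℝ c₁ c') (right_mem_segment ℝ c₁ c')
    have h3 := (tree hdeg hw j).2
    have h4 : (YY d p V w j c₁).ncard = (YY d p V w j c').ncard := h2
    rw [← h4]
    exact h3
  have hEfin := finite_E hd w (p * j)
  have hc'E : c' ∉ {c : ℂ | ∃ k, 1 ≤ k ∧ k ≤ p * j ∧ P d k c = w} := by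
    rintro ⟨k, hk, _, h⟩
    exact hseg c' (right_mem_segment ℝ c₁ c') k hk h
  have hsub : ball c' (δ / 2) ⊆ ball c₁ δ := by
    apply ball_subset_ball'
    rw [dist_eq_norm]
    linarith
  have hc'fin : (YY d p V w j c').Finite :=
    ((local_B hLP hd hVo hVb isOpen_ball hfr hw hj1 R (hsegB c' (right_mem_segment ℝ c₁ c'))
      (fun k hk _ => hseg c' (right_mem_segment ℝ c₁ c') k hk)).1.self_of_nhds).1
  have hlow : (η₀ / R) ^ (d ^ j) ≤ ‖BP d p V w j R c'‖ := by
    apply BP_ge hη₀ (by linarith) hc'fin hcard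
    intro y hy
    by_contra hlt
    push Not at hlt
    exact hη₀' y hlt (subset_closure (hy.1 i₀ (by omega)))
  have key := hJZ (BP d p V w j R) c' (δ / 2) 1 ((η₀ / R) ^ (d ^ j))
    {c : ℂ | ∃ k, 1 ≤ k ∧ k ≤ p * j ∧ P d k c = w} hfinZ.toFinset (by positivity) hEfin
    (by
      rintro c ⟨hc1, hc2⟩
      refine ((local_B hLP hd hVo hVb isOpen_ball hfr hw hj1 R (hsub hc1) ?_).2
        ).differentiableWithinAt
      intro k hk1 hk2 hk3
      exact hc2 ⟨k, hk1, hk2, hk3⟩)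
    (fun c _ => BP_le hj1 hR hVR c) hc'E hlow (by
      intro c hc
      rw [Set.Finite.coe_toFinset] at hc
      have h1 := hc.1
      rw [mem_ball, dist_eq_norm] at h1 ⊢
      have h2 : ‖c - c'‖ ≤ ‖c - c₁‖ + ‖c' - c₁‖ := by
        rw [← dist_eq_norm, ← dist_eq_norm, ← dist_eq_norm]
        exact dist_triangle_right _ _ _
      linarith)
    (by
      intro ĉ hĉ
      rw [Set.Finite.mem_toFinset] at hĉ
      obtain ⟨h1, h2, h3⟩ := hĉ
      rw [Metric.tendsto_nhds]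
      intro ε hε
      have h4 := persist hd hVo h2 h3 (ε := ε * R) (by positivity)
      have h5 : ∀ᶠ c in 𝓝[≠] ĉ, c ∉ {c : ℂ | ∃ k, 1 ≤ k ∧ k ≤ p * j ∧ P d k c = w} := by
        have h6 : IsClosed ({c : ℂ | ∃ k, 1 ≤ k ∧ k ≤ p * j ∧ P d k c = w} \ {ĉ}) :=
          (hEfin.subset sdiff_subset).isClosed
        have h7 : ({c : ℂ | ∃ k, 1 ≤ k ∧ k ≤ p * j ∧ P d k c = w} \ {ĉ})ᶜ ∈ 𝓝 ĉ :=
          h6.isOpen_compl.mem_nhds (by simp)
        filter_upwards [mem_nhdsWithin_of_mem_nhds h7, self_mem_nhdsWithin] with c hc1 hc2 hc3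
        exact hc1 ⟨hc3, hc2⟩
      have h6 : ∀ᶠ c in 𝓝[≠] ĉ, c ∈ ball c₁ δ := by
        apply mem_nhdsWithin_of_mem_nhds
        exact isOpen_ball.mem_nhds (ball_subset_ball (by linarith) h1)
      filter_upwards [nhdsWithin_le_nhds h4, h5, h6] with c hc1 hc2 hc3
      obtain ⟨y, hy1, hy2⟩ := hc1
      rw [dist_zero_right]
      have hf := ((local_B hLP hd hVo hVb isOpen_ball hfr hw hj1 R hc3 (by
        intro k hk1 hk2 hk3
        exact hc2 ⟨k, hk1, hk2, hk3⟩)).1.self_of_nhds).1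
      exact BP_small hj1 hR hVR hf hy2 hy1)
  rw [← Set.ncard_eq_toFinset_card _ hfinZ] at key
  have h1 : (2 : ℝ) ^ ({c | c ∈ ball c₁ (δ / 16) ∧ (∀ i < j, P d (p * i) c ∈ V) ∧
      P d (p * j) c = w}.ncard) ≤ (R / η₀) ^ (d ^ j) := by
    have h2 : (R / η₀) ^ (d ^ j) = 1 / (η₀ / R) ^ (d ^ j) := by
      rw [← inv_div, inv_pow, one_div]
    rw [h2, le_div_iff₀ (by positivity)]
    linarith
  have h2 := Real.log_le_log (by positivity) h1
  rw [Real.log_pow, Real.log_pow] at h2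
  rw [div_mul_eq_mul_div, le_div_iff₀ hlog2]
  push_cast at h2
  linarith

end Pool.Agent.Y736.RN
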