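import Pool.Agent.Y736.RN.C

set_option autoImplicit false

/-! # Renormalizable parameters: the local dimension bound -/

namespace Pool.Agent.Y736.RN

open Filter Topology Set Metric MeasureTheory Pool.Agent.H712R2

/-- trapped up to time `j` -/
def TT (d p : ℕ) (V : Set ℂ) (j : ℕ) : Set ℂ := {c | ∀ i ≤ j, P d (p * i) c ∈ V}

theorem isOpen_TT (d p : ℕ) {V : Set ℂ} (hV : IsOpen V) (j : ℕ) : IsOpen (TT d p V j) := by
  have h : TT d p V j = ⋂ i ∈ Finset.range (j + 1), (P d (p * i)) ⁻¹' V := by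
    ext c
    simp [TT]
  rw [h]
  exact isOpen_biInter_finset fun i _ => hV.preimage (continuous_P d (p * i))

theorem TT_anti (d p : ℕ) (V : Set ℂ) : Antitone (TT d p V) :=
  fun _ _ h _ hc i hi => hc i (hi.trans h)

theorem iter_P (d m n : ℕ) (c : ℂ) : (fc d c)^[m] (P d n c) = P d (m + n) c := by
  unfold P
  rw [← Function.iterate_add_apply]

/-- uniform separation -/
theorem sep {d p : ℕ} {V : Set ℂ} (hVo : IsOpen V) (hVb : Bornology.IsBounded V) {c₁ : ℂ} {δ : ℝ}
    (hδ : 0 < δ) (hfr : ∀ c ∈ ball c₁ δ, ∀ z ∈ frontier V, (fc d c)^[p] z ∉ closure V) (b : ℕ) :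
    ∃ δs : ℝ, 0 < δs ∧ ∀ c₀ ∈ closedBall c₁ (δ / 2), (∀ i, P d (p * i) c₀ ∈ V) →
      ∀ (c z : ℂ) (l : ℕ), ‖c - c₀‖ < δs → ‖z - P d (p * l) c₀‖ < δs →
        ∀ k ≤ b, (fc d c)^[p * k] z ∈ V := by
  obtain ⟨K, hK⟩ : ∃ K : Set (ℂ × ℂ), K = (closedBall c₁ (δ / 2) ×ˢ closure V) ∩
    ⋂ k ∈ Finset.range (b + 2), (fun q : ℂ × ℂ => (fc d q.1)^[p * k] q.2) ⁻¹' closure V := ⟨_, rfl⟩
  have hKc : IsCompact K := by
    rw [hK]
    refine IsCompact.inter_right ((isCompact_closedBall _ _).prod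
      (Metric.isCompact_of_isClosed_isBounded isClosed_closure hVb.closure)) ?_
    exact isClosed_biInter fun i _ => isClosed_closure.preimage (cont_it d (p * i))
  have hKO : K ⊆ OO d p V (b + 1) := by
    rw [hK]
    rintro ⟨c, z⟩ ⟨⟨h1, _⟩, h3⟩ k hk
    simp only [mem_iInter, Finset.mem_range, mem_preimage] at h3
    by_contra hcon
    have hf : (fc d c)^[p * k] z ∈ frontier V := by
      rw [hVo.frontier_eq]
      exact ⟨h3 k (by omega), hcon⟩
    apply hfr c (closedBall_subset_ball (half_lt_self hδ) h1) _ hf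
    rw [← Function.iterate_add_apply, show p + p * k = p * (k + 1) by ring]
    exact h3 (k + 1) (by omega)
  obtain ⟨δs, hδs, hth⟩ := hKc.exists_thickening_subset_open (isOpen_OO d p hVo (b + 1)) hKO
  refine ⟨δs, hδs, fun c₀ hc₀ htr c z l hc hz k hk => ?_⟩
  have h1 : (c₀, P d (p * l) c₀) ∈ K := by
    rw [hK]
    refine ⟨⟨hc₀, subset_closure (htr l)⟩, ?_⟩
    simp only [mem_iInter, Finset.mem_range, mem_preimage]
    intro k _
    rw [iter_P, ← Nat.mul_add]
    exact subset_closure (htr _)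
  have h2 : (c, z) ∈ thickening δs K := by
    rw [mem_thickening_iff]
    refine ⟨_, h1, ?_⟩
    rw [Prod.dist_eq, dist_eq_norm, dist_eq_norm]
    exact max_lt hc hz
  exact hth h2 k (by omega)

/-- the null set of bad targets -/
theorem null_bad (d : ℕ) (a b : ℂ) :
    volume {w : ℂ | ∃ m, ∃ c ∈ segment ℝ a b, P d m c = w} = 0 := by
  have h1 : {w : ℂ | ∃ m, ∃ c ∈ segment ℝ a b, P d m c = w} = ⋃ m, P d m '' segment ℝ a b := by
    ext w
    simp
  have hseg : volume (segment ℝ a b) = 0 := by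
    have h2 : segment ℝ a b = (fun t : ℝ => a + t • (b - a)) '' Icc 0 1 := segment_eq_image' ℝ a b
    rw [h2]
    have h3 : (fun t : ℝ => a + t • (b - a)) '' Icc 0 1 ⊆
        (fun z : ℂ => a + z * (b - a)) '' {z : ℂ | z.im = 0} := by
      rintro _ ⟨t, _, rfl⟩
      exact ⟨(t : ℂ), by simp, by simp⟩
    refine measure_mono_null h3 ?_
    apply MeasureTheory.addHaar_image_eq_zero_of_differentiableOn_of_addHaar_eq_zero (μ := volume)
    · intro z _
      have : Differentiable ℝ (fun z : ℂ => a + z * (b - a)) := by fun_prop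
      exact (this z).differentiableWithinAt
    · have h4 : {z : ℂ | z.im = 0} = ((LinearMap.ker (Complex.imLm : ℂ →ₗ[ℝ] ℝ) :
          Submodule ℝ ℂ) : Set ℂ) := by
        ext z
        simp
      rw [h4]
      apply MeasureTheory.Measure.addHaar_submodule
      intro htop
      have h5 : Complex.I ∈ (LinearMap.ker (Complex.imLm : ℂ →ₗ[ℝ] ℝ) : Submodule ℝ ℂ) := by
        rw [htop]; trivial
      simp at h5
  rw [h1]
  refine measure_iUnion_null fun m => ?_
  apply MeasureTheory.addHaar_image_eq_zero_of_differentiableOn_of_addHaar_eq_zero (μ := volume)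
    _ hseg
  intro c _
  have h2 : Differentiable ℂ (P d m) := diff_it_c d m 0
  exact ((h2 c).restrictScalars ℝ).differentiableWithinAt

end Pool.Agent.Y736.RN
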