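import Pool.Agent.Y736.RN.Stm

set_option autoImplicit false

/-! # Dimension of a limsup set -/

namespace Pool.Agent.Y736.RN

open Filter Topology Set Metric MeasureTheory
open scoped ENNReal NNReal

private theorem dc_geom (ρ : ℝ≥0∞) (hρ : ρ < 1) (m : ℕ) :
    ∑' j : ℕ, ρ ^ (m + j) ≤ (1 - ρ)⁻¹ := by
  rw [← ENNReal.tsum_geometric]
  refine ENNReal.tsum_le_tsum fun j => ?_
  exact pow_le_pow_of_le_one zero_le hρ.le (by omega)

private theorem dc_term (D X K C s : ℝ) (m : ℕ) (hD : 0 < D) (hK : 0 ≤ K) (hs : 0 ≤ s)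
    (hC : 0 ≤ C) (n : ℕ) (hn : (n : ℝ) ≤ C * D ^ m) :
    (n : ℝ≥0∞) * ENNReal.ofReal (2 * (K * Real.exp (-(X * m)))) ^ s ≤
      ENNReal.ofReal (C * (2 * K) ^ s) * ENNReal.ofReal (D * Real.exp (-(X * s))) ^ m := by
  have h1 : (n : ℝ≥0∞) = ENNReal.ofReal (n : ℝ) := (ENNReal.ofReal_natCast n).symm
  rw [h1, ENNReal.ofReal_rpow_of_nonneg (by positivity) hs, ← ENNReal.ofReal_mul (by positivity),
    ← ENNReal.ofReal_pow (by positivity), ← ENNReal.ofReal_mul (by positivity)]
  refine ENNReal.ofReal_le_ofReal ?_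
  have h2 : (2 * (K * Real.exp (-(X * m)))) ^ s = (2 * K) ^ s * Real.exp (-(X * s)) ^ m := by
    rw [← mul_assoc, Real.mul_rpow (by positivity) (by positivity), ← Real.exp_mul,
      ← Real.exp_nat_mul]
    congr 2
    ring
  rw [h2, mul_pow]
  have h3 : 0 ≤ (2 * K) ^ s * Real.exp (-(X * s)) ^ m := by positivity
  calc (n : ℝ) * ((2 * K) ^ s * Real.exp (-(X * s)) ^ m)
      ≤ (C * D ^ m) * ((2 * K) ^ s * Real.exp (-(X * s)) ^ m) := mul_le_mul_of_nonneg_right hn h3
    _ = C * (2 * K) ^ s * (D ^ m * Real.exp (-(X * s)) ^ m) := by ring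

private theorem dc_diam (z : ℂ) (r : ℝ) :
    Metric.ediam (Metric.closedBall z r) ≤ ENNReal.ofReal (2 * r) := by
  refine Metric.ediam_le fun x hx y hy => ?_
  rw [edist_dist]
  refine ENNReal.ofReal_le_ofReal ?_
  have h1 := Metric.mem_closedBall.1 hx
  have h2 := Metric.mem_closedBall'.1 hy
  linarith [dist_triangle x z y]

private theorem dc_main (D X K C : ℝ) (J : ℕ) (Z : ℕ → Set ℂ) (A : Set ℂ) (hD : 1 < D)
    (hX : 0 < X) (hK : 0 ≤ K) (hC : 0 ≤ C)
    (hZ : ∀ j ≥ J, (Z j).Finite ∧ ((Z j).ncard : ℝ) ≤ C * D ^ j)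
    (hA : ∀ a ∈ A, ∃ᶠ j : ℕ in atTop, ∃ z ∈ Z j, ‖a - z‖ ≤ K * Real.exp (-(X * j)))
    (s : ℝ≥0) (hs : Real.log D / X < s) : μH[(s : ℝ)] A ≠ ∞ := by
  have hD0 : 0 < D := by linarith
  set ρ : ℝ≥0∞ := ENNReal.ofReal (D * Real.exp (-(X * s))) with hρd
  have hρ : ρ < 1 := by
    rw [hρd, ENNReal.ofReal_lt_one]
    have h1 : Real.log D < X * s := by
      rw [div_lt_iff₀ hX] at hs
      linarith
    have h2 : D = Real.exp (Real.log D) := (Real.exp_log hD0).symm
    rw [h2, ← Real.exp_add, Real.exp_lt_one_iff]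
    linarith
  have hcount : ∀ n j : ℕ, Finite (Z (n + J + j)) := fun n j =>
    (hZ (n + J + j) (by omega)).1.to_subtype
  have hc2 : ∀ n : ℕ, Countable (Σ j : ℕ, Z (n + J + j)) := fun n => by
    have := hcount n
    infer_instance
  set R : ℕ → ℝ := fun m => K * Real.exp (-(X * m)) with hR
  have hR0 : ∀ m, 0 ≤ R m := fun m => by rw [hR]; positivity
  have hRmono : ∀ m m' : ℕ, m ≤ m' → R m' ≤ R m := by
    intro m m' h
    simp only [hR]
    refine mul_le_mul_of_nonneg_left (Real.exp_le_exp.2 ?_) hK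
    have : (m : ℝ) ≤ m' := by exact_mod_cast h
    nlinarith
  have hRlim : Tendsto R atTop (𝓝 0) := by
    have h1 : Tendsto (fun m : ℕ => X * (m : ℝ)) atTop atTop :=
      tendsto_natCast_atTop_atTop.const_mul_atTop hX
    have h2 := (Real.tendsto_exp_neg_atTop_nhds_zero.comp h1).const_mul K
    simpa [hR, Function.comp_def] using h2
  have hle := MeasureTheory.Measure.hausdorffMeasure_le_liminf_tsum
    (ι := fun n : ℕ => Σ j : ℕ, Z (n + J + j)) (s : ℝ) A (l := atTop)
    (fun n => ENNReal.ofReal (2 * R n)) ?_ (fun n i => Metric.closedBall (i.2 : ℂ) (R (n + J + i.1)))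
    ?_ ?_
  · refine ne_top_of_le_ne_top (b := ENNReal.ofReal (C * (2 * K) ^ (s : ℝ)) * (1 - ρ)⁻¹) ?_ ?_
    · refine ENNReal.mul_ne_top ENNReal.ofReal_ne_top ?_
      rw [ENNReal.inv_ne_top]
      exact (tsub_pos_of_lt hρ).ne'
    · refine hle.trans ?_
      refine (liminf_le_liminf (Eventually.of_forall fun n => ?_)).trans
        (liminf_const (f := (atTop : Filter ℕ)) _).le
      rw [ENNReal.tsum_sigma']
      calc ∑' (j : ℕ) (z : Z (n + J + j)),
            Metric.ediam (Metric.closedBall (z : ℂ) (R (n + J + j))) ^ (s : ℝ)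
          ≤ ∑' j : ℕ, ENNReal.ofReal (C * (2 * K) ^ (s : ℝ)) * ρ ^ (n + J + j) := by
            refine ENNReal.tsum_le_tsum fun j => ?_
            have := hcount n j
            have : Fintype (Z (n + J + j)) := Fintype.ofFinite _
            rw [tsum_fintype]
            calc ∑ z : Z (n + J + j),
                  Metric.ediam (Metric.closedBall (z : ℂ) (R (n + J + j))) ^ (s : ℝ)
                ≤ ∑ _z : Z (n + J + j), ENNReal.ofReal (2 * R (n + J + j)) ^ (s : ℝ) := by
                  refine Finset.sum_le_sum fun z _ => ?_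
                  exact ENNReal.rpow_le_rpow (dc_diam _ _) s.2
              _ = ((Z (n + J + j)).ncard : ℝ≥0∞) *
                    ENNReal.ofReal (2 * R (n + J + j)) ^ (s : ℝ) := by
                  rw [Finset.sum_const, nsmul_eq_mul, Finset.card_univ, ← Nat.card_eq_fintype_card]
                  rfl
              _ ≤ _ := by
                  have := dc_term D X K C s (n + J + j) hD0 hK s.2 hC
                    (Z (n + J + j)).ncard (hZ _ (by omega)).2
                  exact this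
        _ = ENNReal.ofReal (C * (2 * K) ^ (s : ℝ)) * ∑' j : ℕ, ρ ^ (n + J + j) :=
            ENNReal.tsum_mul_left
        _ ≤ _ := by gcongr; exact dc_geom ρ hρ _
  · have h1 : Tendsto (fun n => 2 * R n) atTop (𝓝 0) := by simpa using hRlim.const_mul 2
    simpa using ENNReal.tendsto_ofReal h1
  · refine Eventually.of_forall fun n i => (dc_diam _ _).trans ?_
    refine ENNReal.ofReal_le_ofReal ?_
    have := hRmono n (n + J + i.1) (by omega)
    linarith
  · refine Eventually.of_forall fun n a ha => ?_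
    obtain ⟨j, ⟨z, hz, hzj⟩, hj⟩ := ((hA a ha).and_eventually (eventually_ge_atTop (n + J))).exists
    rw [mem_iUnion]
    obtain ⟨k, rfl⟩ := Nat.exists_eq_add_of_le hj
    refine ⟨⟨k, ⟨z, hz⟩⟩, ?_⟩
    rw [Metric.mem_closedBall, dist_eq_norm]
    exact hzj

theorem dc : S_DC := by
  intro D X K C J Z A hD hX hZ hA
  rcases A.eq_empty_or_nonempty with rfl | ⟨a, ha⟩
  · simp
  have hK : 0 ≤ K := by
    obtain ⟨j, z, hz, hj⟩ := (hA a ha).exists
    by_contra hneg
    push Not at hneg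
    have h1 : K * Real.exp (-(X * j)) < 0 := mul_neg_of_neg_of_pos hneg (Real.exp_pos _)
    linarith [norm_nonneg (a - z)]
  have hC : 0 ≤ C := by
    have h1 := (hZ J le_rfl).2
    have h2 : 0 ≤ ((Z J).ncard : ℝ) := Nat.cast_nonneg _
    have h3 : 0 < D ^ J := by positivity
    by_contra hneg
    push Not at hneg
    nlinarith [mul_neg_of_neg_of_pos hneg h3]
  have hl0 : 0 < Real.log D / X := div_pos (Real.log_pos hD) hX
  refine le_of_forall_gt_imp_ge_of_dense fun t ht => ?_
  rcases eq_or_ne t ∞ with rfl | htop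
  · exact le_top
  lift t to ℝ≥0 using htop
  have hlt : Real.log D / X < (t : ℝ) := by
    have h1 := (ENNReal.ofReal_lt_coe_iff hl0.le).1 ht
    exact h1
  exact dimH_le_of_hausdorffMeasure_ne_top (dc_main D X K C J Z A hD hX hK hC hZ hA t hlt)

end Pool.Agent.Y736.RN
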