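import Pool.Agent.Y736.RN.D

set_option autoImplicit false

/-! # Renormalizable parameters: the local dimension bound, assembly -/

namespace Pool.Agent.Y736.RN

open Filter Topology Set Metric MeasureTheory Pool.Agent.H712R2

/-- the exit times from `V` are fast at infinitely many scales -/
def Fast (d p : ℕ) (V : Set ℂ) (X : ℝ) (c₀ : ℂ) : Prop :=
  ∃ᶠ n : ℕ in atTop, ∃ c ∈ closedBall c₀ (Real.exp (-(X * n))), ∃ i ≤ n, P d (p * i) c ∉ V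

/-- the trapped radius -/
noncomputable def rad (d p : ℕ) (V : Set ℂ) (c₀ : ℂ) (s : ℝ) (j : ℕ) : ℝ :=
  sSup {ρ : ℝ | 0 ≤ ρ ∧ ρ ≤ s ∧ ball c₀ ρ ⊆ TT d p V j}

theorem rad_bdd (d p : ℕ) (V : Set ℂ) (c₀ : ℂ) (s : ℝ) (j : ℕ) :
    BddAbove {ρ : ℝ | 0 ≤ ρ ∧ ρ ≤ s ∧ ball c₀ ρ ⊆ TT d p V j} := ⟨s, fun _ h => h.2.1⟩

theorem rad_ne (d p : ℕ) (V : Set ℂ) (c₀ : ℂ) {s : ℝ} (hs : 0 < s) (j : ℕ) :
    {ρ : ℝ | 0 ≤ ρ ∧ ρ ≤ s ∧ ball c₀ ρ ⊆ TT d p V j}.Nonempty :=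
  ⟨0, le_rfl, hs.le, by simp⟩

theorem rad_pos {d p : ℕ} {V : Set ℂ} (hV : IsOpen V) {c₀ : ℂ} (hc : ∀ i, P d (p * i) c₀ ∈ V)
    {s : ℝ} (hs : 0 < s) (j : ℕ) : 0 < rad d p V c₀ s j := by
  obtain ⟨ε, hε, h⟩ := Metric.isOpen_iff.1 (isOpen_TT d p hV j) c₀ (fun i _ => hc i)
  have h1 : min ε s ≤ rad d p V c₀ s j := le_csSup (rad_bdd d p V c₀ s j)
    ⟨by positivity, min_le_right _ _, (ball_subset_ball (min_le_left _ _)).trans h⟩
  have h2 : 0 < min ε s := by positivity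
  linarith

theorem rad_anti (d p : ℕ) (V : Set ℂ) (c₀ : ℂ) {s : ℝ} (hs : 0 < s) :
    Antitone (rad d p V c₀ s) := by
  intro i j hij
  apply csSup_le_csSup (rad_bdd d p V c₀ s i) (rad_ne d p V c₀ hs j)
  rintro ρ ⟨h1, h2, h3⟩
  exact ⟨h1, h2, h3.trans (TT_anti d p V hij)⟩

theorem ball_rad {d p : ℕ} {V : Set ℂ} {c₀ : ℂ} {s : ℝ} (hs : 0 < s) (j : ℕ) :
    ball c₀ (rad d p V c₀ s j) ⊆ TT d p V j := by
  intro x hx
  rw [mem_ball] at hx
  obtain ⟨ρ, hρ, h1⟩ := exists_lt_of_lt_csSup (rad_ne d p V c₀ hs j) hx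
  exact hρ.2.2 h1

theorem not_ball {d p : ℕ} {V : Set ℂ} {c₀ : ℂ} {s ρ : ℝ} {j : ℕ}
    (h : rad d p V c₀ s j < ρ) (hρs : ρ ≤ s) (h0 : 0 ≤ ρ) : ∃ c ∈ ball c₀ ρ, c ∉ TT d p V j := by
  by_contra hcon
  push Not at hcon
  have h1 : ρ ≤ rad d p V c₀ s j := le_csSup (rad_bdd d p V c₀ s j) ⟨h0, hρs, hcon⟩
  linarith

theorem rad_fast {d p : ℕ} {V : Set ℂ} {c₀ : ℂ} {s X : ℝ} (hs : 0 < s) (h : Fast d p V X c₀) :
    ∃ᶠ n : ℕ in atTop, rad d p V c₀ s n ≤ Real.exp (-(X * n)) := by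
  refine h.mono ?_
  rintro n ⟨c, hc, i, hi, hiV⟩
  apply csSup_le (rad_ne d p V c₀ hs n)
  rintro ρ ⟨h1, h2, h3⟩
  by_contra hcon
  push Not at hcon
  rw [mem_closedBall] at hc
  exact hiV (h3 (mem_ball.2 (hc.trans_lt hcon)) i hi)

/-- **The local bound.** -/
theorem loc (hLP : S_LP) (hJZ : S_JZ) (hQS : S_QS) (hDC : S_DC) (hSEQ : S_SEQ) {d p : ℕ}
    (hd : 2 ≤ d) (hp : 1 ≤ p) {V : Set ℂ}
    (hVo : IsOpen V) (hVb : Bornology.IsBounded V) {c₁ : ℂ}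
    (hfr₁ : ∀ z ∈ frontier V, (fc d c₁)^[p] z ∉ closure V) (hdeg : Deg d p V c₁)
    (hesc : ∀ ε : ℝ, 0 < ε → ∃ c' : ℂ, ‖c' - c₁‖ < ε ∧ ∃ i, P d (p * i) c' ∉ closure V) :
    ∃ δ : ℝ, 0 < δ ∧ ∀ X : ℝ, 0 < X →
      dimH {c₀ | c₀ ∈ ball c₁ δ ∧ (∀ i, P d (p * i) c₀ ∈ V) ∧ Fast d p V X c₀} ≤
        ENNReal.ofReal (Real.log d / X) := by
  obtain ⟨δ, hδ, hfr⟩ := stab hVb hfr₁
  obtain ⟨c', hc', hesc'⟩ := hesc (δ / 16) (by positivity)
  refine ⟨δ / 32, by positivity, ?_⟩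
  have hdR : (1 : ℝ) < d := by exact_mod_cast (by omega : 1 < d)
  -- it is enough to prove a slightly weaker bound
  suffices hmain : ∀ X X' : ℝ, 0 < X' → X' < X →
      dimH {c₀ | c₀ ∈ ball c₁ (δ / 32) ∧ (∀ i, P d (p * i) c₀ ∈ V) ∧ Fast d p V X c₀} ≤
        ENNReal.ofReal (Real.log d / X') by
    intro X hX
    have h1 : Tendsto (fun X' : ℝ => ENNReal.ofReal (Real.log d / X')) (𝓝[<] X)
        (𝓝 (ENNReal.ofReal (Real.log d / X))) := by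
      apply ENNReal.tendsto_ofReal
      exact (tendsto_const_nhds.div tendsto_id hX.ne').mono_left nhdsWithin_le_nhds
    apply ge_of_tendsto h1
    have h2 : ∀ᶠ X' : ℝ in 𝓝[<] X, 0 < X' := nhdsWithin_le_nhds (lt_mem_nhds hX)
    filter_upwards [h2, self_mem_nhdsWithin] with X' h3 h4
    exact hmain X X' h3 h4
  intro X X' hX' hXX'
  obtain ⟨b, hb⟩ := exists_nat_gt (1 / X')
  have hb2 : 2 < Real.exp (X' * b) := by
    rw [div_lt_iff₀ hX'] at hb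
    have h1 := Real.add_one_lt_exp (x := X' * b) (by nlinarith)
    nlinarith
  obtain ⟨δs, hδs, hsep⟩ := sep hVo hVb hδ hfr b
  obtain ⟨R₀, hR₀⟩ := hVb.exists_norm_le
  obtain ⟨R, hR⟩ : ∃ R, R = max R₀ 1 := ⟨_, rfl⟩
  have hRpos : 0 < R := by rw [hR]; exact lt_of_lt_of_le one_pos (le_max_right _ _)
  have hVR : ∀ y ∈ V, ‖y‖ ≤ R := fun y hy => (hR₀ y hy).trans (by rw [hR]; exact le_max_left _ _)
  obtain ⟨δ₂, hδ₂, hsurj⟩ := hQS R δs hRpos hδs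
  -- the net
  obtain ⟨G, hG⟩ : ∃ G : Set ℂ, G = V \ {w : ℂ | ∃ m, ∃ c ∈ segment ℝ c₁ c', P d m c = w} :=
    ⟨_, rfl⟩
  have hGt : TotallyBounded G := by
    apply ((Metric.isCompact_of_isClosed_isBounded isClosed_closure
      hVb.closure).totallyBounded).subset
    rw [hG]
    exact sdiff_subset.trans subset_closure
  obtain ⟨t, htG, htfin, htcov⟩ := Metric.finite_approx_of_totallyBounded hGt (δ₂ / 2) (by positivity)
  have hnet : ∀ z ∈ V, ∃ w ∈ t, ‖w - z‖ < δ₂ := by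
    intro z hz
    have h1 : (V ∩ ball z (δ₂ / 2)).Nonempty := ⟨z, hz, mem_ball_self (by positivity)⟩
    have h2 : IsOpen (V ∩ ball z (δ₂ / 2)) := hVo.inter isOpen_ball
    have h3 : 0 < volume (V ∩ ball z (δ₂ / 2)) := h2.measure_pos volume h1
    obtain ⟨w₀, hw₀, hw₀'⟩ : ∃ w₀ ∈ V ∩ ball z (δ₂ / 2),
        w₀ ∉ {w : ℂ | ∃ m, ∃ c ∈ segment ℝ c₁ c', P d m c = w} := by
      by_contra hcon
      push Not at hcon
      have h4 := measure_mono_null (μ := volume) hcon (null_bad d c₁ c')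
      exact h3.ne' h4
    have h5 : w₀ ∈ G := by
      rw [hG]
      exact ⟨hw₀.1, hw₀'⟩
    obtain ⟨w, hw, hw2⟩ := mem_iUnion₂.1 (htcov h5)
    refine ⟨w, hw, ?_⟩
    have h6 := hw₀.2
    rw [mem_ball, dist_eq_norm] at hw2 h6
    have h7 : w - z = (w₀ - z) - (w₀ - w) := by ring
    rw [h7]
    have := norm_sub_le (w₀ - z) (w₀ - w)
    linarith
  -- the sets of centres
  obtain ⟨Zw, hZw⟩ : ∃ Zw : ℂ → ℕ → Set ℂ, Zw = fun w j => {c | c ∈ ball c₁ (δ / 16) ∧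
      (∀ i < j, P d (p * i) c ∈ V) ∧ P d (p * j) c = w} := ⟨_, rfl⟩
  have hcount : ∀ w ∈ t, ∃ (C : ℝ) (J : ℕ), ∀ j ≥ J, (Zw w j).Finite ∧
      ((Zw w j).ncard : ℝ) ≤ C * (d : ℝ) ^ j := by
    intro w hw
    have h1 := htG hw
    rw [hG] at h1
    rw [hZw]
    exact count hLP hJZ hd hp hVo hVb hδ hfr hdeg hc' hesc' h1.1
      (fun c hc m _ h => h1.2 ⟨m, c, hc, h⟩)
  obtain ⟨S, hS⟩ : ∃ S : ℂ → Set ℂ, S = fun w => {c₀ | ∃ᶠ j : ℕ in atTop, ∃ z ∈ Zw w j,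
      ‖c₀ - z‖ ≤ 4 * Real.exp (-(X' * j))} := ⟨_, rfl⟩
  have hSdim : ∀ w ∈ t, dimH (S w) ≤ ENNReal.ofReal (Real.log d / X') := by
    intro w hw
    obtain ⟨C, J, h1⟩ := hcount w hw
    apply hDC d X' 4 C J (Zw w) (S w) hdR hX' h1
    intro a ha
    rw [hS] at ha
    exact ha
  have hsub : {c₀ | c₀ ∈ ball c₁ (δ / 32) ∧ (∀ i, P d (p * i) c₀ ∈ V) ∧ Fast d p V X c₀} ⊆
      ⋃ w ∈ t, S w := by
    rintro c₀ ⟨hc₀, htr, hfast⟩
    rw [mem_iUnion₂]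
    simp only [exists_prop]
    by_contra hcon
    push Not at hcon
    have hev : ∀ᶠ j : ℕ in atTop, ∀ w ∈ t, ¬ ∃ z ∈ Zw w j, ‖c₀ - z‖ ≤ 4 * Real.exp (-(X' * j)) := by
      rw [eventually_all_finite htfin]
      intro w hw
      have h1 := hcon w hw
      rw [hS] at h1
      exact not_frequently.1 h1
    obtain ⟨N, hN⟩ := eventually_atTop.1 hev
    have hrs : (0 : ℝ) < δ / 4 := by positivity
    have hseq := hSEQ (rad d p V c₀ (δ / 4)) X X' b (rad_pos hVo htr hrs)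
      (rad_anti d p V c₀ hrs) hX' hXX' hb2 (rad_fast hrs hfast)
    have hlim : Tendsto (fun j : ℕ => 4 * Real.exp (-(X' * j))) atTop (𝓝 (4 * 0)) := by
      apply Tendsto.const_mul
      apply Real.tendsto_exp_neg_atTop_nhds_zero.comp
      exact Tendsto.const_mul_atTop hX' tendsto_natCast_atTop_atTop
    rw [mul_zero] at hlim
    have hsmall := hlim.eventually (gt_mem_nhds (show 0 < min δs (δ / 32) by positivity))
    obtain ⟨j, ⟨hbj, hj1, hj2⟩, hj3, hj4⟩ := (hseq.and_eventually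
      (hsmall.and (eventually_ge_atTop (N + b)))).exists
    have hj3a : 4 * Real.exp (-(X' * j)) < δs := hj3.trans_le (min_le_left _ _)
    have hj3b : 4 * Real.exp (-(X' * j)) < δ / 32 := hj3.trans_le (min_le_right _ _)
    have he0 := Real.exp_pos (-(X' * j))
    obtain ⟨ρ, hρ⟩ : ∃ ρ, ρ = min ((rad d p V c₀ (δ / 4) j + rad d p V c₀ (δ / 4) (j - b) / 2) / 2)
      (2 * Real.exp (-(X' * j))) := ⟨_, rfl⟩
    have hρ1 : rad d p V c₀ (δ / 4) j < ρ := by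
      rw [hρ, lt_min_iff]
      constructor <;> linarith
    have hρ2 : 2 * ρ ≤ rad d p V c₀ (δ / 4) (j - b) := by
      have := min_le_left ((rad d p V c₀ (δ / 4) j + rad d p V c₀ (δ / 4) (j - b) / 2) / 2)
        (2 * Real.exp (-(X' * j)))
      rw [← hρ] at this
      linarith
    have hρ3 : ρ ≤ 2 * Real.exp (-(X' * j)) := by rw [hρ]; exact min_le_right _ _
    have hρ0 : 0 < ρ := (rad_pos hVo htr hrs j).trans hρ1
    obtain ⟨c'', hc''1, hc''2⟩ := not_ball hρ1 (by linarith) hρ0.le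
    have hball : ball c₀ (2 * ρ) ⊆ TT d p V (j - b) :=
      (ball_subset_ball hρ2).trans (ball_rad hrs (j - b))
    rw [mem_ball, dist_eq_norm] at hc''1 hc₀
    have hc₀' : c₀ ∈ closedBall c₁ (δ / 2) := by
      rw [mem_closedBall, dist_eq_norm]
      linarith
    have hfar : δs ≤ ‖P d (p * (j - b)) c'' - P d (p * (j - b)) c₀‖ := by
      by_contra hlt
      push Not at hlt
      apply hc''2
      intro i hi
      rcases Nat.lt_or_ge i (j - b) with h1 | h1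
      · exact hball (by rw [mem_ball, dist_eq_norm]; linarith) i h1.le
      · have h2 := hsep c₀ hc₀' htr c'' (P d (p * (j - b)) c'') (j - b) (by linarith) hlt
          (i - (j - b)) (by omega)
        rw [iter_P, ← Nat.mul_add, show i - (j - b) + (j - b) = i by omega] at h2
        exact h2
    obtain ⟨w, hwt, hw⟩ := hnet (P d (p * (j - b)) c₀) (htr (j - b))
    obtain ⟨ĉ, hĉ1, hĉ2⟩ := hsurj (P d (p * (j - b))) c₀ ρ hρ0
      ((diff_it_c d (p * (j - b)) 0).differentiableOn)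
      (fun c hc => hVR _ (hball hc (j - b) le_rfl))
      ⟨c'', by rw [mem_closedBall, dist_eq_norm]; exact hc''1.le, hfar⟩ w hw
    have hĉT := hball hĉ1
    rw [mem_ball, dist_eq_norm] at hĉ1
    apply hN (j - b) (by omega) w hwt
    refine ⟨ĉ, ?_, ?_⟩
    · rw [hZw]
      refine ⟨?_, fun i hi => hĉT i hi.le, hĉ2⟩
      rw [mem_ball, dist_eq_norm]
      have h1 : ĉ - c₁ = (ĉ - c₀) + (c₀ - c₁) := by ring
      rw [h1]
      have := norm_add_le (ĉ - c₀) (c₀ - c₁)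
      linarith
    · rw [norm_sub_rev]
      have h1 : Real.exp (-(X' * j)) ≤ Real.exp (-(X' * (j - b : ℕ))) := by
        apply Real.exp_le_exp.2
        have h2 : ((j - b : ℕ) : ℝ) ≤ j := by exact_mod_cast Nat.sub_le j b
        nlinarith
      linarith
  refine (dimH_mono hsub).trans ?_
  rw [dimH_bUnion htfin.countable]
  exact iSup₂_le hSdim

end Pool.Agent.Y736.RN
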