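import Pool.Agent.Y736.RN.E

set_option autoImplicit false

/-! # Renormalizable parameters: from local to global -/

namespace Pool.Agent.Y736.RN

open Filter Topology Set Metric MeasureTheory Pool.Agent.H712R2

/-- the conditions on `V` at the parameter `c` -/
def Good (d p : ℕ) (V : Set ℂ) (c : ℂ) : Prop :=
  (∀ z ∈ frontier V, (fc d c)^[p] z ∉ closure V) ∧ Deg d p V c ∧ ∀ i, P d (p * i) c ∈ V

/-- fast exits give escaping parameters -/
theorem esc_of_fast {d p : ℕ} {V : Set ℂ} (hVo : IsOpen V) (hVb : Bornology.IsBounded V) {c₁ : ℂ}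
    (hfr : ∀ z ∈ frontier V, (fc d c₁)^[p] z ∉ closure V) {X : ℝ} (hX : 0 < X)
    (hfast : Fast d p V X c₁) :
    ∀ ε : ℝ, 0 < ε → ∃ c' : ℂ, ‖c' - c₁‖ < ε ∧ ∃ i, P d (p * i) c' ∉ closure V := by
  intro ε hε
  obtain ⟨δ, hδ, hst⟩ := stab hVb hfr
  have hlim : Tendsto (fun n : ℕ => Real.exp (-(X * n))) atTop (𝓝 0) := by
    apply Real.tendsto_exp_neg_atTop_nhds_zero.comp
    exact Tendsto.const_mul_atTop hX tendsto_natCast_atTop_atTop
  have hsmall := hlim.eventually (gt_mem_nhds (show 0 < min ε δ by positivity))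
  obtain ⟨n, ⟨c, hc, i, hi, hiV⟩, hn⟩ := (hfast.and_eventually hsmall).exists
  rw [mem_closedBall, dist_eq_norm] at hc
  have h1 : ‖c - c₁‖ < min ε δ := hc.trans_lt hn
  refine ⟨c, h1.trans_le (min_le_left _ _), ?_⟩
  by_cases h : P d (p * i) c ∈ closure V
  · refine ⟨i + 1, ?_⟩
    have hf : P d (p * i) c ∈ frontier V := by
      rw [hVo.frontier_eq]
      exact ⟨h, hiV⟩
    have h2 := hst c (by rw [mem_ball, dist_eq_norm]; exact h1.trans_le (min_le_right _ _)) _ hf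
    rwa [iter_P, show p + p * i = p * (i + 1) by ring] at h2
  · exact ⟨i, h⟩

theorem dim_good (hLP : S_LP) (hJZ : S_JZ) (hQS : S_QS) (hDC : S_DC) (hSEQ : S_SEQ) {d p : ℕ}
    (hd : 2 ≤ d) (hp : 1 ≤ p) {V : Set ℂ} (hVo : IsOpen V) (hVb : Bornology.IsBounded V)
    {X : ℝ} (hX : 0 < X) :
    dimH {c | Good d p V c ∧ Fast d p V X c} ≤ ENNReal.ofReal (Real.log d / X) := by
  apply le_of_forall_lt
  intro r hr
  obtain ⟨c₁, ⟨hg, hf⟩, h⟩ := exists_mem_nhdsWithin_lt_dimH_of_lt_dimH hr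
  obtain ⟨δ, hδ, hloc⟩ := loc hLP hJZ hQS hDC hSEQ hd hp hVo hVb hg.1 hg.2.1
    (esc_of_fast hVo hVb hg.1 hX hf)
  have h1 : ball c₁ δ ∩ {c | Good d p V c ∧ Fast d p V X c} ∈
      𝓝[{c | Good d p V c ∧ Fast d p V X c}] c₁ :=
    inter_mem_nhdsWithin' c₁ δ hδ
  refine (h _ h1).trans_le ((dimH_mono ?_).trans (hloc X hX))
  rintro c ⟨h2, h3, h4⟩
  exact ⟨h2, h3.2.2, h4⟩
where
  inter_mem_nhdsWithin' {s : Set ℂ} (c₁ : ℂ) (δ : ℝ) (hδ : 0 < δ) : ball c₁ δ ∩ s ∈ 𝓝[s] c₁ :=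
    inter_mem (mem_nhdsWithin_of_mem_nhds (ball_mem_nhds c₁ hδ)) self_mem_nhdsWithin

/-- polynomial-like maps of degree at most `d` -/
def PolyLike (d : ℕ) (g : ℂ → ℂ) (U : Set ℂ) : Prop :=
  IsOpen U ∧ Bornology.IsBounded U ∧ closure U ⊆ g '' U ∧
    (∀ K ⊆ g '' U, IsCompact K → IsCompact {z | z ∈ U ∧ g z ∈ K}) ∧
    ∀ w ∈ g '' U, {z | z ∈ U ∧ g z = w}.encard ≤ d

/-- renormalizable of period `p` -/
def Ren (d : ℕ) (c : ℂ) (p : ℕ) : Prop :=
  ∃ U : Set ℂ, PolyLike d ((fc d c)^[p]) U ∧ (0 : ℂ) ∈ U ∧ ∀ n, 1 ≤ n → P d (n * p) c ∈ U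

theorem front_poly {d : ℕ} {g : ℂ → ℂ} (hg : Continuous g) {U : Set ℂ} (h : PolyLike d g U) :
    ∀ z ∈ frontier U, g z ∉ closure U := by
  obtain ⟨hUo, _, hsub, hprop, _⟩ := h
  intro z hz hgz
  have hzc : z ∈ closure U := frontier_subset_closure hz
  have hzU : z ∉ U := by
    rw [hUo.frontier_eq] at hz
    exact hz.2
  obtain ⟨x, hx, hlim⟩ := mem_closure_iff_seq_limit.1 hzc
  have h1 : Tendsto (fun n => g (x n)) atTop (𝓝 (g z)) := (hg.tendsto z).comp hlim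
  have h2 := hprop (insert (g z) (range fun n => g (x n))) (by
    intro y hy
    rcases hy with hy | ⟨n, hn⟩
    · rw [hy]
      exact hsub hgz
    · rw [← hn]
      exact ⟨x n, hx n, rfl⟩) h1.isCompact_insert_range
  have h3 : z ∈ {z | z ∈ U ∧ g z ∈ insert (g z) (range fun n => g (x n))} := by
    have h4 : z ∈ {y | y ∈ U ∧ g y ∈ insert (g z) (range fun n => g (x n))} :=
      h2.isClosed.mem_of_tendsto hlim (Eventually.of_forall fun n => ⟨hx n, Or.inr ⟨n, rfl⟩⟩)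
    exact ⟨h4.1, Or.inl rfl⟩
  exact hzU h3.1

/-- the countable family of domains -/
def FamV : Set (Set ℂ) :=
  {V | ∃ F : Set (Set ℂ), F.Finite ∧ F ⊆ TopologicalSpace.countableBasis ℂ ∧ V = ⋃₀ F}

theorem FamV_countable : FamV.Countable := by
  have h1 : {F : Set (Set ℂ) | F.Finite ∧ F ⊆ TopologicalSpace.countableBasis ℂ}.Countable :=
    Set.countable_ofPred_finite_subset (TopologicalSpace.countable_countableBasis ℂ)
  have h2 := h1.image (fun F => ⋃₀ F)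
  refine h2.mono ?_
  rintro V ⟨F, hF1, hF2, rfl⟩
  exact ⟨F, ⟨hF1, hF2⟩, rfl⟩

theorem FamV_open {V : Set ℂ} (h : V ∈ FamV) : IsOpen V := by
  obtain ⟨F, _, hF, rfl⟩ := h
  exact isOpen_sUnion fun s hs =>
    (TopologicalSpace.isBasis_countableBasis ℂ).isOpen (hF hs)

/-- approximation from inside -/
theorem approx {K U : Set ℂ} (hK : IsCompact K) (hU : IsOpen U) (hKU : K ⊆ U) :
    ∃ V ∈ FamV, K ⊆ V ∧ closure V ⊆ U := by
  have h1 : ∀ x ∈ K, ∃ b ∈ TopologicalSpace.countableBasis ℂ, x ∈ b ∧ closure b ⊆ U := by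
    intro x hx
    obtain ⟨ε, hε, hball⟩ := Metric.isOpen_iff.1 hU x (hKU hx)
    obtain ⟨b, hb, hxb, hbs⟩ := (TopologicalSpace.isBasis_countableBasis ℂ).mem_nhds_iff.1
      (ball_mem_nhds x (half_pos hε))
    refine ⟨b, hb, hxb, ?_⟩
    refine (closure_mono hbs).trans (closure_ball_subset_closedBall.trans ?_)
    exact (closedBall_subset_ball (half_lt_self hε)).trans hball
  choose! b hb1 hb2 hb3 using h1
  obtain ⟨t, ht1, ht2⟩ := hK.elim_nhds_subcover b (fun x hx =>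
    ((TopologicalSpace.isBasis_countableBasis ℂ).isOpen (hb1 x hx)).mem_nhds (hb2 x hx))
  refine ⟨⋃₀ (b '' t), ⟨b '' t, t.finite_toSet.image b, ?_, rfl⟩, ?_, ?_⟩
  · rintro _ ⟨x, hx, rfl⟩
    exact hb1 x (ht1 x hx)
  · rw [sUnion_image]
    exact ht2
  · rw [sUnion_image]
    have h2 : closure (⋃ x ∈ (t : Set ℂ), b x) = ⋃ x ∈ (t : Set ℂ), closure (b x) :=
      t.finite_toSet.closure_biUnion b
    rw [h2]
    exact iUnion₂_subset fun x hx => hb3 x (ht1 x hx)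

/-- a renormalizable parameter is good for one of the domains of the family -/
theorem good_of_ren {d p : ℕ} {c : ℂ} (h : Ren d c p) :
    ∃ V ∈ FamV, IsOpen V ∧ Bornology.IsBounded V ∧ Good d p V c := by
  obtain ⟨U, hPL, h0, horb⟩ := h
  have hg : Continuous ((fc d c)^[p]) := cont_it_y d p c
  have hfr := front_poly hg hPL
  obtain ⟨hUo, hUb, hsub, _, hdeg⟩ := hPL
  obtain ⟨K, hK⟩ : ∃ K : Set ℂ, K = closure U ∩ (fc d c)^[p] ⁻¹' closure U := ⟨_, rfl⟩
  have hKc : IsCompact K := by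
    rw [hK]
    exact (Metric.isCompact_of_isClosed_isBounded isClosed_closure hUb.closure).inter_right
      (isClosed_closure.preimage hg)
  have hKU : K ⊆ U := by
    rw [hK]
    rintro z ⟨h1, h2⟩
    by_contra hcon
    exact hfr z (by rw [hUo.frontier_eq]; exact ⟨h1, hcon⟩) h2
  obtain ⟨V, hV, hKV, hVU⟩ := approx hKc hUo hKU
  have hVU' : V ⊆ U := subset_closure.trans hVU
  have hPU : ∀ i, P d (p * i) c ∈ U := by
    intro i
    rcases Nat.eq_zero_or_pos i with hi | hi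
    · subst hi
      simpa [P_zero] using h0
    · rw [Nat.mul_comm]
      exact horb i hi
  refine ⟨V, hV, FamV_open hV, hUb.subset hVU', ?_, ?_, ?_⟩
  · intro z hz hgz
    have hz1 : z ∈ closure V := frontier_subset_closure hz
    rw [(FamV_open hV).frontier_eq] at hz
    apply hz.2
    apply hKV
    rw [hK]
    exact ⟨subset_closure (hVU hz1), subset_closure (hVU hgz)⟩
  · intro w hw
    have h1 : w ∈ (fc d c)^[p] '' U := hsub (subset_closure (hVU' hw))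
    have h2 := hdeg w h1
    have h3 : {z | z ∈ V ∧ (fc d c)^[p] z = w} ⊆ {z | z ∈ U ∧ (fc d c)^[p] z = w} :=
      fun z hz => ⟨hVU' hz.1, hz.2⟩
    have h4 : {z | z ∈ V ∧ (fc d c)^[p] z = w}.encard ≤ d := (encard_le_encard h3).trans h2
    have h5 : {z | z ∈ V ∧ (fc d c)^[p] z = w}.Finite :=
      finite_of_encard_le_coe h4
    refine ⟨h5, ?_⟩
    rw [← h5.cast_ncard_eq] at h4
    exact_mod_cast h4
  · intro i
    apply hKV
    rw [hK]
    refine ⟨subset_closure (hPU i), ?_⟩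
    show (fc d c)^[p] (P d (p * i) c) ∈ closure U
    rw [iter_P, show p + p * i = p * (i + 1) by ring]
    exact subset_closure (hPU (i + 1))

/-- **The global bound in terms of exit times.** -/
theorem dim_ren (hLP : S_LP) (hJZ : S_JZ) (hQS : S_QS) (hDC : S_DC) (hSEQ : S_SEQ) {d p : ℕ}
    (hd : 2 ≤ d) (hp : 1 ≤ p) {X : ℝ} (hX : 0 < X) {A : Set ℂ}
    (hA : ∀ c ∈ A, Ren d c p ∧ ∀ V : Set ℂ, Bornology.IsBounded V → Fast d p V X c) :
    dimH A ≤ ENNReal.ofReal (Real.log d / X) := by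
  have hsub : A ⊆ ⋃ V ∈ {V : Set ℂ | V ∈ FamV ∧ Bornology.IsBounded V},
      {c | Good d p V c ∧ Fast d p V X c} := by
    intro c hc
    obtain ⟨hr, hf⟩ := hA c hc
    obtain ⟨V, hV, _, hVb, hg⟩ := good_of_ren hr
    rw [mem_iUnion₂]
    exact ⟨V, ⟨hV, hVb⟩, hg, hf V hVb⟩
  refine (dimH_mono hsub).trans ?_
  rw [dimH_bUnion (FamV_countable.mono fun V hV => hV.1)]
  exact iSup₂_le fun V hV => dim_good hLP hJZ hQS hDC hSEQ hd hp (FamV_open hV.1) hV.2 hX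

end Pool.Agent.Y736.RN
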