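import Pool.Agent.Y736.RN.Stm

/-! # Number of zeros of a bounded analytic function (helper499) -/

set_option autoImplicit false

namespace Pool.Agent.Y736.RN

open Filter Topology Set Metric MeasureTheory

/-- Removal of finitely many singularities. -/
private lemma remove {c' : ℂ} {R M : ℝ} {E : Set ℂ} (hE : E.Finite) :
    ∀ A : ℂ → ℂ, DifferentiableOn ℂ A (ball c' R \ E) → (∀ c ∈ ball c' R \ E, ‖A c‖ ≤ M) →
      ∃ B : ℂ → ℂ, DifferentiableOn ℂ B (ball c' R) ∧ (∀ c ∈ ball c' R, ‖B c‖ ≤ M) ∧
        ∀ c ∈ ball c' R \ E, B c = A c := by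
  induction E, hE using Set.Finite.induction_on with
  | empty =>
    intro A hA hM
    refine ⟨A, by simpa using hA, fun c hc => hM c (by simpa using hc), fun c _ => rfl⟩
  | @insert e E' he hE' ih =>
    intro A hA hM
    have hU : IsOpen (ball c' R \ E') := isOpen_ball.sdiff hE'.isClosed
    by_cases heB : e ∈ ball c' R
    · have heU : e ∈ ball c' R \ E' := ⟨heB, he⟩
      have hs : (ball c' R \ E') \ {e} = ball c' R \ insert e E' := by
        ext x
        simp only [mem_diff, mem_singleton_iff, mem_insert_iff, not_or]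
        tauto
      have hd : DifferentiableOn ℂ A ((ball c' R \ E') \ {e}) := by rw [hs]; exact hA
      have hb : BddAbove (norm ∘ A '' ((ball c' R \ E') \ {e})) := by
        refine ⟨M, ?_⟩
        rintro _ ⟨x, hx, rfl⟩
        exact hM x (by rw [← hs]; exact hx)
      have h1 := Complex.differentiableOn_update_limUnder_of_bddAbove (hU.mem_nhds heU) hd hb
      have h2 : ∀ x ∈ ball c' R \ E',
          ‖Function.update A e (limUnder (𝓝[≠] e) A) x‖ ≤ M := by
        intro x hx
        by_cases hxe : x = e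
        · subst hxe
          have hc : ContinuousAt (Function.update A x (limUnder (𝓝[≠] x) A)) x :=
            (h1.differentiableAt (hU.mem_nhds hx)).continuousAt
          have ht : Tendsto (fun y => ‖Function.update A x (limUnder (𝓝[≠] x) A) y‖) (𝓝[≠] x)
              (𝓝 ‖Function.update A x (limUnder (𝓝[≠] x) A) x‖) :=
            (hc.norm.tendsto).mono_left nhdsWithin_le_nhds
          refine le_of_tendsto ht ?_
          have h3 : ∀ᶠ y in 𝓝[≠] x, y ∈ ball c' R \ E' := nhdsWithin_le_nhds (hU.mem_nhds hx)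
          filter_upwards [h3, self_mem_nhdsWithin] with y hy hyx
          have hyx' : y ≠ x := hyx
          rw [Function.update_of_ne hyx']
          exact hM y (by rw [← hs]; exact ⟨hy, hyx'⟩)
        · rw [Function.update_of_ne hxe]
          exact hM x (by rw [← hs]; exact ⟨hx, hxe⟩)
      obtain ⟨B, hB1, hB2, hB3⟩ := ih _ h1 h2
      refine ⟨B, hB1, hB2, fun c hc => ?_⟩
      rw [← hs] at hc
      rw [hB3 c hc.1, Function.update_of_ne hc.2]
    · have hs : ball c' R \ insert e E' = ball c' R \ E' := by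
        ext x
        simp only [mem_diff, mem_insert_iff, not_or]
        constructor
        · rintro ⟨h1, h2, h3⟩
          exact ⟨h1, h3⟩
        · rintro ⟨h1, h2⟩
          exact ⟨h1, fun h => heB (h ▸ h1), h2⟩
      rw [hs] at hA hM ⊢
      exact ih A hA hM

/-- The inequality for analytic functions. -/
private lemma bound {c' : ℂ} {R : ℝ} (hR : 0 < R) (Z : Finset ℂ) :
    ∀ (A : ℂ → ℂ) (M : ℝ), DifferentiableOn ℂ A (ball c' R) → (∀ c ∈ ball c' R, ‖A c‖ ≤ M) →
      (∀ z ∈ Z, z ∈ ball c' (R / 3)) → (∀ z ∈ Z, A z = 0) → ‖A c'‖ * 2 ^ Z.card ≤ M := by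
  classical
  induction Z using Finset.induction_on with
  | empty =>
    intro A M _ hM _ _
    simpa using hM c' (mem_ball_self hR)
  | @insert z Z hz ih =>
    intro A M hA hM hZ hZ0
    have hM0 : 0 ≤ M := (norm_nonneg _).trans (hM c' (mem_ball_self hR))
    have hz1 : z ∈ ball c' (R / 3) := hZ z (Finset.mem_insert_self z Z)
    have hz2 : ‖c' - z‖ < R / 3 := by
      rw [← dist_eq_norm, dist_comm]; exact hz1
    have hzR : z ∈ ball c' R := ball_subset_ball (by linarith) hz1
    have hAz : A z = 0 := hZ0 z (Finset.mem_insert_self z Z)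
    set r := R - ‖c' - z‖ with hr
    have hr0 : 0 < r := by rw [hr]; linarith
    have hB1 : DifferentiableOn ℂ (dslope A z) (ball c' R) :=
      (Complex.differentiableOn_dslope (isOpen_ball.mem_nhds hzR)).2 hA
    have hB2 : ∀ c ∈ ball c' R, ‖dslope A z c‖ ≤ M / r := by
      intro c hc
      by_cases hcz : c ∈ ball z r
      · refine Complex.norm_dslope_le_div_of_mapsTo_ball (R₁ := r) (hA.mono ?_) ?_ hcz
        · intro x hx
          rw [mem_ball] at hx ⊢
          calc dist x c' ≤ dist x z + dist z c' := dist_triangle _ _ _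
            _ < r + ‖c' - z‖ := by
              rw [← dist_eq_norm, dist_comm c' z]
              linarith
            _ = R := by rw [hr]; ring
        · intro x hx
          rw [hAz, mem_closedBall_zero_iff]
          refine hM x ?_
          rw [mem_ball] at hx ⊢
          calc dist x c' ≤ dist x z + dist z c' := dist_triangle _ _ _
            _ < r + ‖c' - z‖ := by
              rw [← dist_eq_norm, dist_comm c' z]
              linarith
            _ = R := by rw [hr]; ring
      · rw [mem_ball, not_lt, dist_eq_norm] at hcz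
        have hne : c ≠ z := by
          rintro rfl
          simp at hcz
          linarith
        rw [dslope_of_ne _ hne, slope_def_module, hAz, sub_zero, norm_smul, norm_inv,
          ← div_eq_inv_mul]
        exact div_le_div₀ hM0 (hM c hc) hr0 hcz
    have hB3 : ∀ z' ∈ Z, dslope A z z' = 0 := by
      intro z' hz'
      have hne : z' ≠ z := fun h => hz (h ▸ hz')
      rw [dslope_of_ne _ hne, slope_def_module, hAz, hZ0 z' (Finset.mem_insert_of_mem hz')]
      simp
    have h1 := ih (dslope A z) (M / r) hB1 hB2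
      (fun z' hz' => hZ z' (Finset.mem_insert_of_mem hz')) hB3
    have h2 : A c' = (c' - z) * dslope A z c' := by
      have := sub_smul_dslope A z c'
      rw [hAz, sub_zero, smul_eq_mul] at this
      exact this.symm
    rw [Finset.card_insert_of_notMem hz, h2, norm_mul, pow_succ]
    have h3 : ‖c' - z‖ * ‖dslope A z c'‖ * (2 ^ Z.card * 2) =
        2 * ‖c' - z‖ * (‖dslope A z c'‖ * 2 ^ Z.card) := by ring
    rw [h3]
    have h4 : 2 * ‖c' - z‖ * (‖dslope A z c'‖ * 2 ^ Z.card) ≤ 2 * ‖c' - z‖ * (M / r) :=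
      mul_le_mul_of_nonneg_left h1 (by positivity)
    refine h4.trans ?_
    rw [← mul_div_assoc, div_le_iff₀ hr0]
    have h5 : 2 * ‖c' - z‖ ≤ r := by rw [hr]; linarith
    calc 2 * ‖c' - z‖ * M ≤ r * M := mul_le_mul_of_nonneg_right h5 hM0
      _ = M * r := mul_comm _ _

theorem jz : S_JZ := by
  intro A c' R M m E Z hR hE hA hM hc' hm hZ hZ0
  obtain ⟨B, hB1, hB2, hB3⟩ := remove hE A hA hM
  have h0 : B c' = A c' := hB3 c' ⟨mem_ball_self hR, hc'⟩
  have hz : ∀ z ∈ Z, B z = 0 := by
    intro z hz
    have hzb : z ∈ ball c' R := ball_subset_ball (by linarith) (hZ hz)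
    have hc : Tendsto B (𝓝[≠] z) (𝓝 (B z)) :=
      ((hB1.differentiableAt (isOpen_ball.mem_nhds hzb)).continuousAt.tendsto).mono_left
        nhdsWithin_le_nhds
    refine tendsto_nhds_unique hc ((hZ0 z hz).congr' ?_)
    have h1 : ∀ᶠ y in 𝓝[≠] z, y ∈ ball c' R := nhdsWithin_le_nhds (isOpen_ball.mem_nhds hzb)
    have h2 : ∀ᶠ y in 𝓝[≠] z, y ∉ E := by
      have h3 : IsOpen (E \ {z})ᶜ := (hE.subset sdiff_subset).isClosed.isOpen_compl
      have h4 : ∀ᶠ y in 𝓝[≠] z, y ∈ (E \ {z})ᶜ :=
        nhdsWithin_le_nhds (h3.mem_nhds (by simp))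
      filter_upwards [h4, self_mem_nhdsWithin] with y hy hyz hyE
      exact hy ⟨hyE, hyz⟩
    filter_upwards [h1, h2] with y hy1 hy2
    exact (hB3 y ⟨hy1, hy2⟩).symm
  have h1 := bound hR Z B M hB1 hB2 (fun z hz => hZ hz) hz
  rw [h0] at h1
  refine le_trans ?_ h1
  exact mul_le_mul_of_nonneg_right hm (by positivity)

end Pool.Agent.Y736.RN
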