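import Pool.Agent.Y736.RN.Stm

/-! Local product over the simple zeros of an analytic family (author: helper270). -/

set_option autoImplicit false

namespace Pool.Agent.Y736.RN

open Filter Topology Set Metric MeasureTheory

/-- the implicit function at a simple zero -/
private lemma lp_implicit {H : ℂ → ℂ → ℂ} (hF : ContDiff ℂ ⊤ (fun q : ℂ × ℂ => H q.1 q.2))
    {c₀ y₀ : ℂ} (h0 : H c₀ y₀ = 0) (hd : deriv (H c₀) y₀ ≠ 0) :
    ∃ g : ℂ → ℂ, DifferentiableAt ℂ g c₀ ∧ g c₀ = y₀ ∧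
      ∀ᶠ v in 𝓝 ((c₀, y₀) : ℂ × ℂ), (H v.1 v.2 = 0 ↔ g v.1 = v.2) := by
  set F : ℂ × ℂ → ℂ := fun q => H q.1 q.2 with hFdef
  have hs : HasStrictFDerivAt F (fderiv ℂ F (c₀, y₀)) (c₀, y₀) :=
    hF.contDiffAt.hasStrictFDerivAt (by simp)
  have hL : (fderiv ℂ F (c₀, y₀) ∘L ContinuousLinearMap.inr ℂ ℂ ℂ) 1 = deriv (H c₀) y₀ := by
    have h1 : HasFDerivAt (fun y : ℂ => ((c₀, y) : ℂ × ℂ)) (ContinuousLinearMap.inr ℂ ℂ ℂ) y₀ :=
      hasFDerivAt_prodMk_right c₀ y₀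
    have h2 : HasFDerivAt (fun y : ℂ => F (c₀, y))
        (fderiv ℂ F (c₀, y₀) ∘L ContinuousLinearMap.inr ℂ ℂ ℂ) y₀ :=
      hs.hasFDerivAt.comp y₀ h1
    have h3 := h2.hasDerivAt
    exact h3.deriv.symm
  have hinv : (fderiv ℂ F (c₀, y₀) ∘L ContinuousLinearMap.inr ℂ ℂ ℂ).IsInvertible := by
    refine ⟨ContinuousLinearEquiv.unitsEquivAut ℂ (Units.mk0 _ hd), ?_⟩
    ext
    rw [hL]
    simp
  refine ⟨hs.implicitFunctionOfProdDomain hinv, ?_, ?_, ?_⟩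
  · exact (hs.hasStrictFDerivAt_implicitFunctionOfProdDomain hinv).hasFDerivAt.differentiableAt
  · exact ((hs.eventually_apply_eq_iff_implicitFunctionOfProdDomain hinv).self_of_nhds.mp rfl)
  · have h1 := hs.eventually_apply_eq_iff_implicitFunctionOfProdDomain hinv
    have h2 : F (c₀, y₀) = 0 := h0
    rw [h2] at h1
    exact h1

theorem lp : S_LP := by
  classical
  intro H O c₀ r hF hO hr hK hsimple
  set Z : ℂ → Set ℂ := fun c => {y : ℂ | (c, y) ∈ O ∧ H c y = 0} with hZ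
  set K : Set (ℂ × ℂ) := {q : ℂ × ℂ | q ∈ O ∧ q.1 ∈ closedBall c₀ r ∧ H q.1 q.2 = 0} with hKdef
  have hc0 : c₀ ∈ closedBall c₀ r := mem_closedBall_self hr.le
  -- the implicit functions
  have hg : ∀ y : ℂ, ∃ g : ℂ → ℂ, y ∈ Z c₀ → (DifferentiableAt ℂ g c₀ ∧ g c₀ = y ∧
      ∀ᶠ v in 𝓝 ((c₀, y) : ℂ × ℂ), (H v.1 v.2 = 0 ↔ g v.1 = v.2)) := by
    intro y
    by_cases hy : y ∈ Z c₀
    · obtain ⟨g, h1, h2, h3⟩ := lp_implicit hF hy.2 (hsimple y hy.1 hy.2)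
      exact ⟨g, fun _ => ⟨h1, h2, h3⟩⟩
    · exact ⟨fun _ => 0, fun h => absurd h hy⟩
  choose g hg using hg
  -- the zeros at `c₀` are isolated
  have hiso : ∀ y ∈ Z c₀, ∀ᶠ y' in 𝓝 y, H c₀ y' = 0 → y' = y := by
    intro y hy
    obtain ⟨_, h2, h3⟩ := hg y hy
    have h4 : Tendsto (fun y' : ℂ => ((c₀, y') : ℂ × ℂ)) (𝓝 y) (𝓝 (c₀, y)) :=
      (Continuous.prodMk_right c₀).tendsto y
    filter_upwards [h4.eventually h3] with y' hy' h5
    have h6 : g y c₀ = y' := hy'.1 h5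
    rw [h2] at h6
    exact h6.symm
  -- finiteness at `c₀`
  have hZ0c : IsCompact (Z c₀) := by
    have h2 : Z c₀ = Prod.snd '' (K ∩ (Prod.fst ⁻¹' {c₀})) := by
      ext y
      constructor
      · intro h; exact ⟨(c₀, y), ⟨⟨h.1, hc0, h.2⟩, rfl⟩, rfl⟩
      · rintro ⟨⟨a, b⟩, ⟨⟨h1, _, h3⟩, h4⟩, h5⟩
        have h6 : a = c₀ := h4
        have h7 : b = y := h5
        subst h6; subst h7
        exact ⟨h1, h3⟩
    rw [h2]
    apply IsCompact.image _ continuous_snd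
    exact hK.inter_right (isClosed_singleton.preimage continuous_fst)
  have hZ0fin : (Z c₀).Finite := by
    have hU : ∀ y ∈ Z c₀, {y' : ℂ | H c₀ y' = 0 → y' = y} ∈ 𝓝 y := hiso
    obtain ⟨t, _, ht2⟩ := hZ0c.elim_nhds_subcover (fun y => {y' : ℂ | H c₀ y' = 0 → y' = y}) hU
    apply (t.finite_toSet).subset
    intro y hy
    have h1 := ht2 hy
    simp only [mem_iUnion] at h1
    obtain ⟨x, hx, h2⟩ := h1
    have h3 : y = x := h2 hy.2
    rw [h3]; exact hx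
  set T : Finset ℂ := hZ0fin.toFinset with hT
  have hTmem : ∀ y, y ∈ T ↔ y ∈ Z c₀ := fun y => hZ0fin.mem_toFinset
  -- a common radius
  have hrad1 : ∀ y ∈ T, ∀ᶠ ε : ℝ in 𝓝[>] 0, ∀ c ∈ ball c₀ ε, ∀ y' ∈ ball y ε,
      (c, y') ∈ O ∧ (H c y' = 0 ↔ g y c = y') := by
    intro y hy
    have hyZ := (hTmem y).1 hy
    obtain ⟨_, _, h3⟩ := hg y hyZ
    have h4 : ∀ᶠ v in 𝓝 ((c₀, y) : ℂ × ℂ), v ∈ O := hO.mem_nhds hyZ.1
    have h5 := h4.and h3
    rw [Metric.eventually_nhds_iff_ball] at h5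
    obtain ⟨δ, hδ, h6⟩ := h5
    have h7 : ∀ᶠ ε : ℝ in 𝓝[>] 0, ε < δ :=
      (eventually_lt_nhds hδ).filter_mono nhdsWithin_le_nhds
    filter_upwards [h7] with ε hε c hc y' hy'
    have h8 : ((c, y') : ℂ × ℂ) ∈ ball ((c₀, y) : ℂ × ℂ) δ := by
      rw [← ball_prod_same]
      exact ⟨ball_subset_ball hε.le hc, ball_subset_ball hε.le hy'⟩
    exact h6 _ h8
  have hrad2 : ∀ y ∈ T, ∀ z ∈ T, ∀ᶠ ε : ℝ in 𝓝[>] 0, y ≠ z → Disjoint (ball y ε) (ball z ε) := by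
    intro y _ z _
    by_cases hyz : y = z
    · exact Eventually.of_forall fun ε h => absurd hyz h
    · have hpos : 0 < dist y z / 2 := by
        have := dist_pos.2 hyz
        positivity
      have h7 : ∀ᶠ ε : ℝ in 𝓝[>] 0, ε < dist y z / 2 :=
        (eventually_lt_nhds hpos).filter_mono nhdsWithin_le_nhds
      filter_upwards [h7] with ε hε _
      apply ball_disjoint_ball
      linarith
  have hA := (Finset.eventually_all T).2 hrad1
  have hB := (Finset.eventually_all T).2 (fun y hy => (Finset.eventually_all T).2 (hrad2 y hy))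
  obtain ⟨ε, ⟨hε1, hε2⟩, hε⟩ := ((hA.and hB).and self_mem_nhdsWithin).exists
  have hεpos : 0 < ε := hε
  -- the outer part
  set Kout : Set (ℂ × ℂ) := K ∩ {q | ∀ y ∈ T, ε ≤ dist q.2 y} with hKout
  have hKoutc : IsCompact Kout := by
    apply hK.inter_right
    have h1 : {q : ℂ × ℂ | ∀ y ∈ T, ε ≤ dist q.2 y} = ⋂ y ∈ T, {q : ℂ × ℂ | ε ≤ dist q.2 y} := by
      ext q; simp
    rw [h1]
    exact isClosed_biInter fun y _ =>
      isClosed_le continuous_const (continuous_snd.dist continuous_const)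
  have hP : IsClosed (Prod.fst '' Kout) := (hKoutc.image continuous_fst).isClosed
  have hc0P : c₀ ∉ Prod.fst '' Kout := by
    rintro ⟨⟨a, b⟩, ⟨⟨h1, _, h3⟩, h4⟩, h5⟩
    have h6 : a = c₀ := h5
    subst h6
    have h7 : b ∈ T := (hTmem b).2 ⟨h1, h3⟩
    have h8 := h4 b h7
    simp at h8
    linarith
  have hev1 : ∀ᶠ c in 𝓝 c₀, c ∉ Prod.fst '' Kout := hP.isOpen_compl.mem_nhds hc0P
  have hev2 : ∀ᶠ c in 𝓝 c₀, c ∈ ball c₀ ε := ball_mem_nhds c₀ hεpos
  have hev3 : ∀ᶠ c in 𝓝 c₀, c ∈ closedBall c₀ r := closedBall_mem_nhds c₀ hr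
  have hev4 : ∀ᶠ c in 𝓝 c₀, ∀ y ∈ T, g y c ∈ ball y ε := by
    apply (Finset.eventually_all T).2
    intro y hy
    obtain ⟨h1, h2, _⟩ := hg y ((hTmem y).1 hy)
    have h3 : Tendsto (g y) (𝓝 c₀) (𝓝 y) := by
      have := h1.continuousAt.tendsto
      rwa [h2] at this
    exact h3.eventually (ball_mem_nhds y hεpos)
  have hev : ∀ᶠ c in 𝓝 c₀, Z c = ((T.image (fun y => g y c) : Finset ℂ) : Set ℂ) ∧
      Set.InjOn (fun y => g y c) (T : Set ℂ) := by
    filter_upwards [hev1, hev2, hev3, hev4] with c h1 h2 h3 h4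
    constructor
    · ext y'
      constructor
      · intro hy'
        have hK' : ((c, y') : ℂ × ℂ) ∈ K := ⟨hy'.1, h3, hy'.2⟩
        have h5 : ¬ ∀ y ∈ T, ε ≤ dist y' y := fun h => h1 ⟨(c, y'), ⟨hK', h⟩, rfl⟩
        push Not at h5
        obtain ⟨y, hy, h6⟩ := h5
        have h7 := (hε1 y hy c h2 y' h6).2.1 hy'.2
        rw [Finset.coe_image]
        exact ⟨y, hy, h7⟩
      · intro hy'
        rw [Finset.coe_image] at hy'
        obtain ⟨y, hy, h7⟩ := hy'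
        have h8 := h4 y hy
        have h9 := hε1 y hy c h2 (g y c) h8
        have h10 : g y c = y' := h7
        rw [h10] at h9
        exact ⟨h9.1, h9.2.2 rfl⟩
    · intro y hy z hz hyz
      by_contra hne
      have h5 := hε2 y hy z hz hne
      have h6 := h4 y hy
      have h7 := h4 z hz
      have h8 : g y c = g z c := hyz
      rw [h8] at h6
      exact Set.disjoint_left.1 h5 h6 h7
  have hcard0 : (Z c₀).ncard = T.card := by
    rw [Set.ncard_eq_toFinset_card _ hZ0fin]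
  refine ⟨?_, ?_⟩
  · filter_upwards [hev] with c hc
    obtain ⟨h1, h2⟩ := hc
    show (Z c).Finite ∧ (Z c).ncard = (Z c₀).ncard
    rw [h1]
    refine ⟨Finset.finite_toSet _, ?_⟩
    rw [Set.ncard_coe_finset, Finset.card_image_of_injOn h2, hcard0]
  · have hprod : (fun c => ∏ᶠ y ∈ {y : ℂ | (c, y) ∈ O ∧ H c y = 0}, y) =ᶠ[𝓝 c₀]
        fun c => ∏ y ∈ T, g y c := by
      filter_upwards [hev] with c hc
      obtain ⟨h1, h2⟩ := hc
      show (∏ᶠ y ∈ Z c, y) = ∏ y ∈ T, g y c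
      rw [h1, finprod_mem_coe_finset, Finset.prod_image h2]
    refine DifferentiableAt.congr_of_eventuallyEq ?_ hprod
    exact DifferentiableAt.fun_finsetProd fun y hy => (hg y ((hTmem y).1 hy)).1

end Pool.Agent.Y736.RN
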