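import Pool.Agent.Y736.RN.Stm

/-! # Quantitative surjectivity of bounded analytic functions (helper499) -/

set_option autoImplicit false

namespace Pool.Agent.Y736.RN

open Filter Topology Set Metric MeasureTheory

/-- Logarithms on discs. -/
private lemma exists_log {G : ℂ → ℂ} {c₀ : ℂ} {r : ℝ} (hr : 0 < r)
    (hG : DifferentiableOn ℂ G (ball c₀ r)) (h0 : ∀ c ∈ ball c₀ r, G c ≠ 0) :
    ∃ L : ℂ → ℂ, DifferentiableOn ℂ L (ball c₀ r) ∧ ∀ c ∈ ball c₀ r, Complex.exp (L c) = G c := by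
  have hd : DifferentiableOn ℂ (fun z => deriv G z / G z) (ball c₀ r) :=
    (hG.deriv isOpen_ball).div hG h0
  obtain ⟨g, hg⟩ := hd.isExactOn_ball
  have hc0 : c₀ ∈ ball c₀ r := mem_ball_self hr
  have hgd : DifferentiableOn ℂ g (ball c₀ r) := fun z hz =>
    (hg z hz).differentiableAt.differentiableWithinAt
  -- `G exp (- g)` is constant
  have hF : ∀ z ∈ ball c₀ r, HasDerivAt (fun z => G z * Complex.exp (-g z)) 0 z := by
    intro z hz
    have h1 : HasDerivAt G (deriv G z) z :=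
      (hG.differentiableAt (isOpen_ball.mem_nhds hz)).hasDerivAt
    have h2 := h1.mul ((hg z hz).neg.cexp)
    refine h2.congr_deriv ?_
    have := h0 z hz
    field_simp
    ring
  have hconst : ∀ z ∈ ball c₀ r, G z * Complex.exp (-g z) = G c₀ * Complex.exp (-g c₀) := by
    intro z hz
    have hdF : DifferentiableOn ℂ (fun z => G z * Complex.exp (-g z)) (ball c₀ r) :=
      fun z hz => (hF z hz).differentiableAt.differentiableWithinAt
    have := (convex_ball c₀ r).is_const_of_fderivWithin_eq_zero (𝕜 := ℂ) hdF ?_ hz hc0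
    · exact this
    · intro x hx
      have h1 := (hF x hx).hasFDerivAt.hasFDerivWithinAt (s := ball c₀ r)
      have h2 := h1.fderivWithin (isOpen_ball.uniqueDiffWithinAt hx)
      rw [h2]
      ext
      simp
  refine ⟨fun z => g z + (Complex.log (G c₀) - g c₀), hgd.add_const _, fun z hz => ?_⟩
  have h1 := hconst z hz
  have h2 := h0 c₀ hc0
  rw [Complex.exp_add, Complex.exp_sub, Complex.exp_log h2]
  rw [Complex.exp_neg, Complex.exp_neg] at h1
  have h3 := Complex.exp_ne_zero (g z)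
  have h4 := Complex.exp_ne_zero (g c₀)
  field_simp at h1 ⊢
  exact h1.symm

/-- Harnack's inequality for nonvanishing functions bounded by one. -/
private lemma harnack {G : ℂ → ℂ} {c₀ : ℂ} {ρ : ℝ} (hρ : 0 < ρ)
    (hG : DifferentiableOn ℂ G (ball c₀ (2 * ρ))) (h0 : ∀ c ∈ ball c₀ (2 * ρ), G c ≠ 0)
    (h1 : ∀ c ∈ ball c₀ (2 * ρ), ‖G c‖ < 1) {c : ℂ} (hc : c ∈ closedBall c₀ ρ) :
    ‖G c‖ ^ 3 ≤ ‖G c₀‖ := by
  obtain ⟨L, hL, hLG⟩ := exists_log (by positivity : 0 < 2 * ρ) hG h0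
  have hcb : c ∈ ball c₀ (2 * ρ) := by
    rw [mem_closedBall] at hc
    rw [mem_ball]
    linarith
  have hc0 : c₀ ∈ ball c₀ (2 * ρ) := mem_ball_self (by positivity)
  have hre : ∀ z ∈ ball c₀ (2 * ρ), (L z).re < 0 := by
    intro z hz
    have h2 := h1 z hz
    rw [← hLG z hz, Complex.norm_exp] at h2
    exact Real.exp_lt_one_iff.1 h2
  set a : ℂ := -L c₀ with ha
  have hap : 0 < a.re := by
    have := hre c₀ hc0
    simp only [ha, Complex.neg_re]
    linarith
  have hden : ∀ z ∈ ball c₀ (2 * ρ), -L z + (starRingEnd ℂ) a ≠ 0 := by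
    intro z hz h
    have h2 := congrArg Complex.re h
    have h3 := hre z hz
    simp only [Complex.add_re, Complex.neg_re, Complex.conj_re, Complex.zero_re] at h2
    linarith
  have hφd : DifferentiableOn ℂ (fun z => (-L z - a) / (-L z + (starRingEnd ℂ) a))
      (ball c₀ (2 * ρ)) :=
    (hL.neg.sub_const a).div (hL.neg.add_const _) hden
  have hsq : ∀ v : ℂ, ‖v - a‖ ^ 2 = (v.re - a.re) ^ 2 + (v.im - a.im) ^ 2 ∧
      ‖v + (starRingEnd ℂ) a‖ ^ 2 = (v.re + a.re) ^ 2 + (v.im - a.im) ^ 2 := by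
    intro v
    rw [← Complex.normSq_eq_norm_sq, ← Complex.normSq_eq_norm_sq, Complex.normSq_apply,
      Complex.normSq_apply]
    simp only [Complex.sub_re, Complex.sub_im, Complex.add_re, Complex.add_im, Complex.conj_re,
      Complex.conj_im]
    constructor <;> ring
  have hφ1 : ∀ z ∈ ball c₀ (2 * ρ), ‖(-L z - a) / (-L z + (starRingEnd ℂ) a)‖ ≤ 1 := by
    intro z hz
    rw [norm_div]
    refine div_le_one_of_le₀ ?_ (norm_nonneg _)
    have h2 := hre z hz
    obtain ⟨e1, e2⟩ := hsq (-L z)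
    refine le_of_sq_le_sq ?_ (norm_nonneg _)
    rw [e1, e2]
    simp only [Complex.neg_re, Complex.neg_im]
    nlinarith
  have hφ0 : (-L c₀ - a) / (-L c₀ + (starRingEnd ℂ) a) = 0 := by
    rw [ha, sub_self, zero_div]
  have hs := Complex.dist_le_div_mul_dist_of_mapsTo_ball (R₂ := 1) hφd (by
    intro z hz
    rw [hφ0, mem_closedBall_zero_iff]
    exact hφ1 z hz) hcb
  rw [hφ0, dist_zero_right] at hs
  have hs2 : ‖(-L c - a) / (-L c + (starRingEnd ℂ) a)‖ ≤ 1 / 2 := by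
    refine hs.trans ?_
    rw [mem_closedBall] at hc
    have h2 : 1 / (2 * ρ) * dist c c₀ ≤ 1 / (2 * ρ) * ρ :=
      mul_le_mul_of_nonneg_left hc (by positivity)
    refine h2.trans (le_of_eq ?_)
    field_simp
  rw [norm_div, div_le_iff₀ (norm_pos_iff.2 (hden c hcb))] at hs2
  obtain ⟨e1, e2⟩ := hsq (-L c)
  have h3 : ‖-L c - a‖ ^ 2 ≤ (1 / 2 * ‖-L c + (starRingEnd ℂ) a‖) ^ 2 :=
    pow_le_pow_left₀ (norm_nonneg _) hs2 2
  rw [mul_pow, e1, e2] at h3
  have h4 := hre c hcb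
  have h5 : a.re ≤ 3 * (-(L c).re) := by
    simp only [Complex.neg_re, Complex.neg_im] at h3
    by_contra hlt
    push Not at hlt
    nlinarith [sq_nonneg (-(L c).im - a.im)]
  rw [← hLG c hcb, ← hLG c₀ hc0, Complex.norm_exp, Complex.norm_exp, ← Real.exp_nat_mul,
    Real.exp_le_exp]
  simp only [ha, Complex.neg_re] at h5
  push_cast
  linarith

theorem qs : S_QS := by
  intro R δ hR hδ
  set R' := 2 * R + δ + 1 with hR'
  have hR'0 : 0 < R' := by positivity
  refine ⟨min (δ / 2) ((δ / 2) ^ 3 / R' ^ 2), lt_min (by positivity) (by positivity), ?_⟩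
  intro F c₀ ρ hρ hF hFR hfar w hw
  by_contra hcon
  push Not at hcon
  have hw1 : ‖w - F c₀‖ < δ / 2 := hw.trans_le (min_le_left _ _)
  have hw2 : ‖w - F c₀‖ < (δ / 2) ^ 3 / R' ^ 2 := hw.trans_le (min_le_right _ _)
  have hc0 : c₀ ∈ ball c₀ (2 * ρ) := mem_ball_self (by positivity)
  have hwn : ‖w‖ ≤ R + δ / 2 := by
    have h1 : ‖w‖ ≤ ‖w - F c₀‖ + ‖F c₀‖ := by
      have := norm_add_le (w - F c₀) (F c₀)
      simpa using this
    have := hFR c₀ hc0
    linarith
  obtain ⟨c, hc, hcd⟩ := hfar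
  have hcb : c ∈ ball c₀ (2 * ρ) := by
    rw [mem_closedBall] at hc
    rw [mem_ball]
    linarith
  have hR'c : (R' : ℂ) ≠ 0 := by exact_mod_cast hR'0.ne'
  have hnR : ‖(R' : ℂ)‖ = R' := by rw [Complex.norm_real, Real.norm_eq_abs, abs_of_pos hR'0]
  have key := harnack (G := fun z => (F z - w) / R') hρ
    ((hF.sub_const w).div_const _) (fun z hz h => by
      rw [div_eq_zero_iff] at h
      rcases h with h | h
      · exact hcon z hz (sub_eq_zero.1 h)
      · exact hR'c h) (fun z hz => by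
      show ‖(F z - w) / R'‖ < 1
      rw [norm_div, hnR, div_lt_one hR'0]
      have h1 := norm_sub_le (F z) w
      have h2 := hFR z hz
      rw [hR']
      linarith) hc
  simp only [norm_div, hnR] at key
  have h1 : ‖F c₀ - w‖ < (δ / 2) ^ 3 / R' ^ 2 := by rwa [norm_sub_rev]
  have h2 : ‖F c - w‖ ^ 3 < (δ / 2) ^ 3 := by
    rw [div_pow, div_le_div_iff₀ (by positivity) hR'0] at key
    rw [lt_div_iff₀ (by positivity)] at h1
    have h3 : ‖F c - w‖ ^ 3 * R' ≤ (‖F c₀ - w‖ * R' ^ 2) * R' := by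
      calc ‖F c - w‖ ^ 3 * R' ≤ ‖F c₀ - w‖ * R' ^ 3 := key
        _ = (‖F c₀ - w‖ * R' ^ 2) * R' := by ring
    have h4 : ‖F c - w‖ ^ 3 ≤ ‖F c₀ - w‖ * R' ^ 2 := le_of_mul_le_mul_right h3 hR'0
    exact h4.trans_lt h1
  have h3 : ‖F c - w‖ < δ / 2 := lt_of_pow_lt_pow_left₀ 3 (by positivity) h2
  have h4 : ‖F c - F c₀‖ ≤ ‖F c - w‖ + ‖w - F c₀‖ := by
    have := norm_add_le (F c - w) (w - F c₀)
    simpa using this
  linarith

end Pool.Agent.Y736.RN
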