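import Pool.Agent.Y736.RN.Stm

/-! Good scales of a decreasing sequence (author: helper270). -/

set_option autoImplicit false

namespace Pool.Agent.Y736.RN

open Filter Topology Set Metric MeasureTheory

theorem seq : S_SEQ := by
  intro r X X' b hr hanti hX' hXX hb hfreq
  by_contra hcon
  rw [not_frequently] at hcon
  obtain ⟨J0, hJ0⟩ := eventually_atTop.1 hcon
  have hb1 : 1 ≤ b := by
    rcases Nat.eq_zero_or_pos b with h | h
    · subst h
      simp at hb
    · exact h
  set J := max J0 b with hJ
  have hbJ : b ≤ J := le_max_right _ _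
  have step : ∀ j, J ≤ j → r j ≤ Real.exp (-(X' * j)) → r (j - b) ≤ 2 * r j := by
    intro j hj h
    by_contra h2
    exact hJ0 j (le_trans (le_max_left _ _) hj) ⟨hbJ.trans hj, h, not_le.1 h2⟩
  have hlim : Tendsto (fun n : ℕ => Real.exp (-((X - X') * n))) atTop (𝓝 0) := by
    have h1 : Tendsto (fun n : ℕ => (X - X') * (n : ℝ)) atTop atTop :=
      tendsto_natCast_atTop_atTop.const_mul_atTop (sub_pos.2 hXX)
    exact Real.tendsto_exp_neg_atTop_nhds_zero.comp h1
  have hev := hlim.eventually (gt_mem_nhds (hr J))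
  obtain ⟨n, hn1, hn2⟩ := (hfreq.and_eventually hev).exists
  have pow2 : ∀ k : ℕ, (2 : ℝ) ^ k ≤ Real.exp (k * (X' * b)) := by
    intro k
    rw [Real.exp_nat_mul]
    exact pow_le_pow_left₀ (by norm_num) hb.le k
  have claim : ∀ k : ℕ, (∀ i, i < k → J ≤ n - i * b) → k * b ≤ n ∧
      r (n - k * b) ≤ 2 ^ k * Real.exp (-(X * n)) := by
    intro k
    induction k with
    | zero =>
      intro _
      simpa using hn1
    | succ k ih =>
      intro h
      obtain ⟨h1, h2⟩ := ih (fun i hi => h i (by omega))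
      have h3 := h k (by omega)
      have e1 : (k + 1) * b = k * b + b := by ring
      have h4 : (k + 1) * b ≤ n := by rw [e1]; omega
      have h5 : n - (k + 1) * b = (n - k * b) - b := by rw [e1]; omega
      refine ⟨h4, ?_⟩
      have h6 : r (n - k * b) ≤ Real.exp (-(X' * ((n - k * b : ℕ) : ℝ))) := by
        refine h2.trans ((mul_le_mul_of_nonneg_right (pow2 k) (Real.exp_pos _).le).trans ?_)
        rw [← Real.exp_add]
        apply Real.exp_le_exp.2
        rw [Nat.cast_sub h1]
        push_cast
        have hn0 : (0 : ℝ) ≤ n := Nat.cast_nonneg n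
        nlinarith
      have h7 := step _ h3 h6
      rw [h5]
      calc r (n - k * b - b) ≤ 2 * r (n - k * b) := h7
        _ ≤ 2 * (2 ^ k * Real.exp (-(X * n))) := by gcongr
        _ = 2 ^ (k + 1) * Real.exp (-(X * n)) := by ring
  have hex : ∃ k : ℕ, n - k * b < J := by
    refine ⟨n, ?_⟩
    have : n ≤ n * b := Nat.le_mul_of_pos_right n hb1
    omega
  classical
  have hk1 := Nat.find_spec hex
  have hk2 : ∀ i, i < Nat.find hex → J ≤ n - i * b := fun i hi => not_lt.1 (Nat.find_min hex hi)
  obtain ⟨h1, h2⟩ := claim _ hk2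
  set k := Nat.find hex with hk
  have h3 : r J ≤ r (n - k * b) := hanti hk1.le
  have h4 : r (n - k * b) ≤ Real.exp (-((X - X') * n)) := by
    refine h2.trans ((mul_le_mul_of_nonneg_right (pow2 k) (Real.exp_pos _).le).trans ?_)
    rw [← Real.exp_add]
    apply Real.exp_le_exp.2
    have h5 : ((k * b : ℕ) : ℝ) ≤ n := Nat.cast_le.2 h1
    push_cast at h5
    nlinarith
  linarith

end Pool.Agent.Y736.RN
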