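import Pool.Agent.Y736.RN.F
import Pool.Agent.Y736.RN.LP
import Pool.Agent.Y736.RN.JZ
import Pool.Agent.Y736.RN.QS
import Pool.Agent.Y736.RN.DC
import Pool.Agent.Y736.RN.SEQ
import Pool.Agent.Y736.HG9

set_option autoImplicit false

/-! # Renormalizable parameters: harmonic measure -/

namespace Pool.Agent.Y736.RN

open Complex Filter Topology Set Metric MeasureTheory Pool.Agent.H713R2
open N62a1eb23
open Pool.Agent.H712R2 (P P_succ P_one P_zero fc continuous_P)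
open Pool.Agent.Y736.HD (Ang vol_Ang_ne ev_lt ev_pos GS)

variable {d : ℕ} {ψ : ℂ → ℂ}

/-- upper bound of the escape rate when the orbit stays bounded for a long time -/
theorem green_lower_R (hd : 2 ≤ d) (hψ : IsExteriorMap (multibrotSet d) ψ) {z : ℂ} (hz : 1 < ‖z‖)
    {n : ℕ} {R : ℝ} (hR : 2 ≤ R) (h1 : ‖ψ z‖ ≤ R) (h2 : ‖P d (n + 1) (ψ z)‖ ≤ R) :
    ‖z‖ ^ (d ^ n) ≤ R + 1 := by
  obtain ⟨β, hβ⟩ := exists_beta (d := d) hd
  rw [exteriorMap_unique hβ hψ hz] at h1 h2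
  obtain ⟨hx, hx0⟩ := inv_mem_ball hz
  obtain ⟨c, hc⟩ : ∃ c, c = z * β z⁻¹ := ⟨_, rfl⟩
  rw [← hc] at h1 h2
  have hgrow : ∀ j, ‖P d (n + 1 + j) c‖ ≤ (R + 1) ^ (d ^ j) - 1 := up_growth hd hR h1 h2
  obtain ⟨κ, hκ⟩ : ∃ κ, κ = Real.exp (-(2 * Real.log 2 * ‖z⁻¹‖ / (1 - ‖z⁻¹‖))) := ⟨_, rfl⟩
  have hκ0 : 0 < κ := by rw [hκ]; exact Real.exp_pos _
  by_contra hcon
  push Not at hcon
  have hzpos : 0 < ‖z‖ := by linarith
  have key : ∀ j, κ ≤ ((R + 1) / ‖z‖ ^ (d ^ n)) ^ (d ^ j) := by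
    intro j
    have h3 := Pool.Agent.W677.MB.BB_lower hd hβ (n + j) hx
    rw [← hκ, BB_eq hd β (n + j) z⁻¹ hx0, inv_inv, ← hc, norm_mul, norm_pow, norm_inv] at h3
    have h4 := hgrow j
    rw [show n + 1 + j = n + j + 1 by ring] at h4
    have h5 : ‖z‖⁻¹ ^ d ^ (n + j) * ‖P d (n + j + 1) c‖ ≤
        ‖z‖⁻¹ ^ d ^ (n + j) * (R + 1) ^ (d ^ j) :=
      mul_le_mul_of_nonneg_left (by linarith) (by positivity)
    refine h3.trans (h5.trans (le_of_eq ?_))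
    rw [div_pow, ← pow_mul, ← pow_add, inv_pow]
    field_simp
  have hlt : (R + 1) / ‖z‖ ^ (d ^ n) < 1 := by
    rw [div_lt_one (by positivity)]
    exact hcon
  have hlim : Tendsto (fun j : ℕ => ((R + 1) / ‖z‖ ^ (d ^ n)) ^ (d ^ j)) atTop (𝓝 0) :=
    (tendsto_pow_atTop_nhds_zero_of_lt_one (by positivity) hlt).comp
      (tendsto_pow_atTop_atTop_of_one_lt (by omega : 1 < d))
  have := ge_of_tendsto' hlim key
  linarith

/-- Green's function is at least of size `r ^ κ` on infinitely many scales -/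
def Big (ψ : ℂ → ℂ) (κ : ℝ) (c : ℂ) : Prop :=
  ∃ η : ℝ, 0 < η ∧ ∃ᶠ r : ℝ in 𝓝[>] 0, ∃ w : ℂ, 1 < ‖w‖ ∧ ‖ψ w - c‖ ≤ r ∧
    η * r ^ κ ≤ Real.log ‖w‖

theorem Big.mono {κ κ' : ℝ} (h : κ ≤ κ') {c : ℂ} (hB : Big ψ κ c) : Big ψ κ' c := by
  obtain ⟨η, hη, hf⟩ := hB
  refine ⟨η, hη, ?_⟩
  refine (hf.and_eventually (ev_pos.and (ev_lt one_pos))).mono ?_
  rintro r ⟨⟨w, h1, h2, h3⟩, hr0, hr1⟩
  refine ⟨w, h1, h2, le_trans ?_ h3⟩
  have := Real.rpow_le_rpow_of_exponent_ge hr0 hr1.le h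
  gcongr

theorem fast_of_big (hd : 2 ≤ d) {p : ℕ} (hp : 1 ≤ p) (hψ : IsExteriorMap (multibrotSet d) ψ)
    {c : ℂ} {κ X : ℝ} (hκ : 0 < κ) (hX : 0 < X) (hXκ : X * κ < p * Real.log d) (hB : Big ψ κ c)
    {V : Set ℂ} (hVb : Bornology.IsBounded V) : Fast d p V X c := by
  obtain ⟨η, hη, hf⟩ := hB
  obtain ⟨R₀, hR₀⟩ := hVb.exists_norm_le
  obtain ⟨R, hR⟩ : ∃ R, R = max R₀ (2 + ‖c‖) := ⟨_, rfl⟩
  have hR2 : 2 + ‖c‖ ≤ R := by rw [hR]; exact le_max_right _ _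
  have hc0 := norm_nonneg c
  have hVR : ∀ y ∈ V, ‖y‖ ≤ R := fun y hy => (hR₀ y hy).trans (by rw [hR]; exact le_max_left _ _)
  have hdR : (1 : ℝ) < d := by exact_mod_cast (by omega : 1 < d)
  have hlogd : 0 < Real.log d := Real.log_pos hdR
  have hpR : (1 : ℝ) ≤ p := by exact_mod_cast hp
  obtain ⟨C₁, hC₁⟩ : ∃ C₁, C₁ = Real.log (d * Real.log (R + 1)) - Real.log η := ⟨_, rfl⟩
  have hlogR : 0 < Real.log (R + 1) := Real.log_pos (by linarith)
  obtain ⟨θ, hθ⟩ : ∃ θ, θ = p * Real.log d / X - κ := ⟨_, rfl⟩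
  have hθ0 : 0 < θ := by
    rw [hθ, sub_pos, lt_div_iff₀ hX]
    linarith
  unfold Fast
  rw [frequently_atTop]
  intro N
  -- a small scale
  have hlim : Tendsto (fun r : ℝ => -Real.log r) (𝓝[>] 0) atTop :=
    tendsto_neg_atBot_atTop.comp Real.tendsto_log_nhdsGT_zero
  have hbig := hlim.eventually (eventually_ge_atTop (max (X * (N + 1)) ((C₁ + p * Real.log d) / θ + 1)))
  obtain ⟨r, ⟨w, hw, hwr, hwη⟩, hr0, hr1, hr2⟩ := (hf.and_eventually
    (ev_pos.and ((ev_lt one_pos).and hbig))).exists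
  obtain ⟨L, hL⟩ : ∃ L, L = -Real.log r := ⟨_, rfl⟩
  rw [← hL] at hr2
  have hL1 : X * (N + 1) ≤ L := (le_max_left _ _).trans hr2
  have hL2 : (C₁ + p * Real.log d) / θ + 1 ≤ L := (le_max_right _ _).trans hr2
  have hL0 : 0 < L := lt_of_lt_of_le (by positivity) hL1
  obtain ⟨n, hn⟩ : ∃ n, n = ⌊L / X⌋₊ := ⟨_, rfl⟩
  have hn1 : (n : ℝ) ≤ L / X := by rw [hn]; exact Nat.floor_le (by positivity)
  have hn2 : L / X < n + 1 := by rw [hn]; exact Nat.lt_floor_add_one _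
  have hnN : N + 1 ≤ n := by
    rw [hn]
    apply Nat.le_floor
    rw [le_div_iff₀ hX]
    push_cast
    linarith
  refine ⟨n, by omega, ψ w, ?_, ?_⟩
  · rw [mem_closedBall, dist_eq_norm]
    refine hwr.trans ?_
    rw [← Real.log_le_iff_le_exp hr0]
    rw [le_div_iff₀ hX] at hn1
    linarith
  · by_contra hcon
    push Not at hcon
    have h1 : ‖ψ w‖ ≤ R := by
      have := norm_add_le (ψ w - c) c
      rw [sub_add_cancel] at this
      linarith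
    obtain ⟨m, hm⟩ : ∃ m, p * n = m + 1 := ⟨p * n - 1, by
      have : 1 ≤ p * n := Nat.mul_pos hp (by omega)
      omega⟩
    have h2 : ‖P d (m + 1) (ψ w)‖ ≤ R := by
      rw [← hm]
      exact hVR _ (hcon n le_rfl)
    have h3 := green_lower_R hd hψ hw (by linarith) h1 h2
    have h4 := Real.log_le_log (by positivity) h3
    rw [Real.log_pow] at h4
    push_cast at h4
    have h5 : η * r ^ κ * (d : ℝ) ^ (m + 1) ≤ d * Real.log (R + 1) := by
      have h6 : (d : ℝ) ^ m * (η * r ^ κ) ≤ (d : ℝ) ^ m * Real.log ‖w‖ := by gcongr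
      calc η * r ^ κ * (d : ℝ) ^ (m + 1) = d * ((d : ℝ) ^ m * (η * r ^ κ)) := by ring
        _ ≤ d * Real.log (R + 1) := by
          apply mul_le_mul_of_nonneg_left _ (by linarith)
          exact h6.trans h4
    have hrκ : 0 < r ^ κ := Real.rpow_pos_of_pos hr0 _
    have h6 := Real.log_le_log (by positivity) h5
    rw [Real.log_mul (by positivity) (by positivity), Real.log_mul hη.ne' hrκ.ne',
      Real.log_rpow hr0, Real.log_pow, ← hm] at h6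
    push_cast at h6
    have h7 : (p : ℝ) * n * Real.log d ≤ κ * L + C₁ := by
      rw [hC₁, hL]
      linarith
    have h8 : (p : ℝ) * (L / X - 1) * Real.log d < p * n * Real.log d := by
      have : L / X - 1 < n := by linarith
      gcongr
    have h9 : L * θ < C₁ + p * Real.log d := by
      have h10 : (p : ℝ) * (L / X - 1) * Real.log d = L * (p * Real.log d / X) - p * Real.log d := by
        field_simp
      rw [hθ]
      nlinarith
    rw [← lt_div_iff₀ hθ0] at h9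
    linarith

/-- a renormalizable parameter lies in the connectedness locus -/
theorem ren_mem {p : ℕ} (hp : 1 ≤ p) {c : ℂ} (h : Ren d c p) : c ∈ multibrotSet d := by
  obtain ⟨U, ⟨_, hUb, _⟩, _, hU⟩ := h
  intro ht
  have h1 : Tendsto (fun n : ℕ => (n + 1) * p) atTop atTop := by
    refine tendsto_atTop_mono (fun n => ?_) (tendsto_id (α := ℕ))
    show n ≤ (n + 1) * p
    nlinarith
  have h2 := ht.comp h1
  have h3 : ∀ᶠ z in Bornology.cobounded ℂ, z ∉ U := hUb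
  obtain ⟨n, hn⟩ := (h2.eventually h3).exists
  exact hn (hU (n + 1) (by omega))

/-- **The dimension bound, in terms of Green's function.** -/
theorem dim_big (hd : 2 ≤ d) {p : ℕ} (hp : 1 ≤ p) (hψ : IsExteriorMap (multibrotSet d) ψ)
    {κ : ℝ} (hκ : 0 < κ) : dimH {c | Ren d c p ∧ Big ψ κ c} ≤ ENNReal.ofReal (κ / p) := by
  have hdR : (1 : ℝ) < d := by exact_mod_cast (by omega : 1 < d)
  have hlogd : 0 < Real.log d := Real.log_pos hdR
  have hpR : (1 : ℝ) ≤ p := by exact_mod_cast hp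
  have h1 : Tendsto (fun t : ℝ => ENNReal.ofReal (κ / (p * t))) (𝓝[<] 1)
      (𝓝 (ENNReal.ofReal (κ / (p * 1)))) := by
    apply ENNReal.tendsto_ofReal
    refine (tendsto_const_nhds.div (tendsto_id.const_mul _) ?_).mono_left nhdsWithin_le_nhds
    positivity
  rw [mul_one] at h1
  apply ge_of_tendsto h1
  have h2 : ∀ᶠ t : ℝ in 𝓝[<] 1, 0 < t := nhdsWithin_le_nhds (lt_mem_nhds one_pos)
  filter_upwards [h2, self_mem_nhdsWithin] with t ht0 ht1
  have ht1' : t < 1 := ht1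
  have hX : 0 < t * (p * Real.log d) / κ := by positivity
  have h3 := dim_ren lp jz qs dc seq hd hp hX (A := {c | Ren d c p ∧ Big ψ κ c}) (by
    rintro c ⟨hr, hB⟩
    refine ⟨hr, fun V hVb => fast_of_big hd hp hψ hκ hX ?_ hB hVb⟩
    rw [div_mul_cancel₀ _ hκ.ne']
    have : 0 < p * Real.log d := by positivity
    nlinarith)
  have h4 : Real.log d / (t * (p * Real.log d) / κ) = κ / (p * t) := by
    field_simp
  rwa [h4] at h3

theorem big_of_vol (hd : 2 ≤ d) (hψ : IsExteriorMap (multibrotSet d) ψ) {c : ℂ}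
    (hc : c ∈ multibrotSet d) {κ : ℝ} (hκ : 0 < κ)
    (h : ∃ᶠ r : ℝ in 𝓝[>] 0, r ^ κ ≤ (volume (Ang ψ c r)).toReal) : Big ψ κ c := by
  have hlog2 : 0 < Real.log 2 := Real.log_pos (by norm_num)
  have hpi := Real.pi_pos
  obtain ⟨η, hη⟩ : ∃ η, η = Real.log 2 / (4 * Real.pi) / 2 ^ κ := ⟨_, rfl⟩
  have hη0 : 0 < η := by rw [hη]; positivity
  refine ⟨η, hη0, ?_⟩
  have hlim : Tendsto (fun r : ℝ => 2 * r) (𝓝[>] 0) (𝓝[>] 0) := by
    rw [tendsto_nhdsWithin_iff]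
    refine ⟨?_, ?_⟩
    · have h1 := (by fun_prop : Continuous fun r : ℝ => 2 * r).tendsto 0
      simp only [mul_zero] at h1
      exact h1.mono_left nhdsWithin_le_nhds
    · filter_upwards [ev_pos] with r hr
      show 0 < 2 * r
      linarith
  apply hlim.frequently
  refine (h.and_eventually ev_pos).mono ?_
  rintro r ⟨h1, hr0⟩
  by_contra hcon
  push Not at hcon
  have hrκ : 0 < r ^ κ := Real.rpow_pos_of_pos hr0 _
  have h2 := HG.vol_le hd hψ hc hr0 (S := η * (2 * r) ^ κ) (by positivity)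
    (fun w hw hw2 => (hcon w hw hw2).le)
  have h3 : 2 * Real.pi * (η * (2 * r) ^ κ) / Real.log 2 = r ^ κ / 2 := by
    rw [hη, Real.mul_rpow (by norm_num) hr0.le]
    field_simp
    ring
  rw [h3] at h2
  linarith

theorem big_of_green {c : ℂ} {κ : ℝ}
    (h : ∃ᶠ r : ℝ in 𝓝[>] 0, r ^ κ ≤ sSup {x | ∃ w : ℂ, 1 < ‖w‖ ∧ ‖ψ w - c‖ ≤ r ∧
      Real.log ‖w‖ = x}) : Big ψ κ c := by
  refine ⟨1 / 2, by norm_num, ?_⟩
  refine (h.and_eventually ev_pos).mono ?_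
  rintro r ⟨h1, hr0⟩
  have hrκ : 0 < r ^ κ := Real.rpow_pos_of_pos hr0 _
  have hne : {x | ∃ w : ℂ, 1 < ‖w‖ ∧ ‖ψ w - c‖ ≤ r ∧ Real.log ‖w‖ = x}.Nonempty := by
    by_contra hcon
    rw [not_nonempty_iff_eq_empty] at hcon
    rw [hcon, Real.sSup_empty] at h1
    linarith
  obtain ⟨x, ⟨w, hw1, hw2, rfl⟩, hx⟩ := exists_lt_of_lt_csSup hne
    (show 1 / 2 * r ^ κ < _ by linarith)
  exact ⟨w, hw1, hw2, hx.le⟩

theorem big_of_deriv (hd : 2 ≤ d) (hψ : IsExteriorMap (multibrotSet d) ψ) {c : ℂ}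
    (hc : c ∈ multibrotSet d) {κ a : ℝ} (hκ : 0 < κ) (ha : Real.log d < κ * a)
    (h : ∃ᶠ n : ℕ in atTop, Real.exp (a * n) ≤ ‖deriv (P d n) c‖) : Big ψ κ c :=
  big_of_vol hd hψ hc hκ ((HG.low_dim hd hψ (HG.ae_land hd hψ) hc hκ ha h).mono
    fun _ h => h.le)

/-- **The infinitely renormalizable parameters.** -/
theorem dim_inf (hd : 2 ≤ d) (hψ : IsExteriorMap (multibrotSet d) ψ) {A : Set ℂ}
    (hA : ∀ c ∈ A, {p : ℕ | Ren d c p}.Infinite ∧ ∃ κ : ℝ, 0 < κ ∧ Big ψ κ c) : dimH A = 0 := by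
  have hsub : A ⊆ ⋃ k : ℕ, {c | {p : ℕ | Ren d c p}.Infinite ∧ Big ψ ((k : ℝ) + 1) c} := by
    intro c hc
    obtain ⟨h1, κ, _, h2⟩ := hA c hc
    obtain ⟨k, hk⟩ := exists_nat_ge κ
    exact mem_iUnion.2 ⟨k, h1, h2.mono (by linarith)⟩
  apply le_antisymm _ bot_le
  refine (dimH_mono hsub).trans ?_
  rw [dimH_iUnion]
  apply iSup_le
  intro k
  have h1 : ∀ N : ℕ, dimH {c | {p : ℕ | Ren d c p}.Infinite ∧ Big ψ ((k : ℝ) + 1) c} ≤
      ENNReal.ofReal (((k : ℝ) + 1) / ((N : ℝ) + 1)) := by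
    intro N
    have h2 : {c | {p : ℕ | Ren d c p}.Infinite ∧ Big ψ ((k : ℝ) + 1) c} ⊆
        ⋃ p : {p : ℕ // N + 1 ≤ p}, {c | Ren d c p ∧ Big ψ ((k : ℝ) + 1) c} := by
      rintro c ⟨h3, h4⟩
      obtain ⟨p, hp, hpN⟩ := h3.exists_gt N
      exact mem_iUnion.2 ⟨⟨p, hpN⟩, hp, h4⟩
    refine (dimH_mono h2).trans ?_
    rw [dimH_iUnion]
    apply iSup_le
    rintro ⟨p, hp⟩
    refine (dim_big (p := p) hd (le_trans (Nat.le_add_left 1 N) hp) hψ (by positivity)).trans ?_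
    apply ENNReal.ofReal_le_ofReal
    have h5 : ((N : ℝ) + 1) ≤ p := by exact_mod_cast hp
    gcongr
  have h2 : Tendsto (fun N : ℕ => ENNReal.ofReal (((k : ℝ) + 1) / ((N : ℝ) + 1))) atTop
      (𝓝 (ENNReal.ofReal 0)) := by
    apply ENNReal.tendsto_ofReal
    have h3 := (tendsto_one_div_add_atTop_nhds_zero_nat (𝕜 := ℝ)).const_mul ((k : ℝ) + 1)
    rw [mul_zero] at h3
    refine h3.congr fun N => ?_
    ring
  rw [ENNReal.ofReal_zero] at h2
  exact ge_of_tendsto' h2 h1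

/-- **Derivatives.** -/
theorem dim_deriv (hd : 2 ≤ d) {p : ℕ} (hp : 1 ≤ p) {χ : ℝ} (hχ : 0 < χ) :
    dimH {c | Ren d c p ∧ ∀ a : ℝ, a < χ → ∃ᶠ n : ℕ in atTop,
      Real.exp (a * n) ≤ ‖deriv (P d n) c‖} ≤ ENNReal.ofReal (Real.log d / (p * χ)) := by
  obtain ⟨β, hβ⟩ := exists_beta (d := d) hd
  have hψ := exteriorMap_of_beta hβ
  have hdR : (1 : ℝ) < d := by exact_mod_cast (by omega : 1 < d)
  have hlogd : 0 < Real.log d := Real.log_pos hdR
  have hpR : (1 : ℝ) ≤ p := by exact_mod_cast hp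
  have h1 : Tendsto (fun κ : ℝ => ENNReal.ofReal (κ / p)) (𝓝[>] (Real.log d / χ))
      (𝓝 (ENNReal.ofReal (Real.log d / χ / p))) := by
    apply ENNReal.tendsto_ofReal
    exact (tendsto_id.div_const _).mono_left nhdsWithin_le_nhds
  rw [show Real.log d / χ / p = Real.log d / (p * χ) by field_simp] at h1
  apply ge_of_tendsto h1
  filter_upwards [self_mem_nhdsWithin] with κ hκ
  have hκ' : Real.log d / χ < κ := hκ
  have hκ0 : 0 < κ := lt_trans (by positivity) hκ'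
  refine (dimH_mono ?_).trans (dim_big hd hp hψ hκ0)
  rintro c ⟨hr, hc⟩
  refine ⟨hr, ?_⟩
  rw [div_lt_iff₀ hχ] at hκ'
  have h2 : Real.log d / κ < χ := by
    rw [div_lt_iff₀ hκ0]
    linarith
  obtain ⟨a, ha1, ha2⟩ := exists_between h2
  rw [div_lt_iff₀ hκ0] at ha1
  exact big_of_deriv hd hψ (ren_mem hp hr) hκ0 (by linarith) (hc a ha2)

end Pool.Agent.Y736.RN
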