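import Pool.Agent.Y736.RN.G

set_option autoImplicit false

/-! # Renormalizable parameters: the loop at a flat parameter -/

namespace Pool.Agent.Y736.RN

open Complex Filter Topology Set Metric MeasureTheory Pool.Agent.H713R2
open N62a1eb23
open Pool.Agent.H712R2 (P P_succ P_one P_zero fc continuous_P)
open Pool.Agent.Y736.HD (Ang vol_Ang_ne ev_lt ev_pos GS)

variable {d : ℕ} {ψ : ℂ → ℂ} {c₀ : ℂ}

theorem loop_flat (hvol : ∀ κ : ℝ, 0 < κ → ∀ᶠ r : ℝ in 𝓝[>] 0, (volume (Ang ψ c₀ r)).toReal < r ^ κ)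
    {F : ℂ → ℂ} (hF : ContinuousOn F {w | 1 ≤ ‖w‖}) (hE : ∀ w, 1 < ‖w‖ → F w = ψ w) {ζ : ℂ}
    (hζ : ‖ζ‖ = 1) (hFζ : F ζ = c₀) {p : ℝ} (hp0 : 0 < p) :
    ∀ᶠ δ : ℝ in 𝓝[>] 0, ∃ ξ : ℂ, ‖ξ‖ = 1 ∧ ‖ξ - ζ‖ ≤ δ ∧ δ ^ p ≤ ‖F ξ - F ζ‖ := by
  have hpi := Real.pi_pos
  -- the angle of `ζ`
  obtain ⟨θ₀, hθ₀, hθζ⟩ : ∃ θ₀ : ℝ, θ₀ ∈ Ioc 0 (2 * Real.pi) ∧ exp (θ₀ * I) = ζ := by
    have h1 : exp ((arg ζ : ℝ) * I) = ζ := by
      have := Complex.norm_mul_exp_arg_mul_I ζ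
      rwa [hζ, ofReal_one, one_mul] at this
    rcases le_or_gt (arg ζ) 0 with h2 | h2
    · refine ⟨arg ζ + 2 * Real.pi, ⟨?_, by linarith⟩, ?_⟩
      · have := Complex.neg_pi_lt_arg ζ
        linarith
      · push_cast
        rw [add_mul, Complex.exp_add, Complex.exp_two_pi_mul_I, mul_one]
        exact h1
    · exact ⟨arg ζ, ⟨h2, by linarith [Complex.arg_le_pi ζ]⟩, h1⟩
  have hlim : Tendsto (fun δ : ℝ => δ ^ p) (𝓝[>] 0) (𝓝[>] 0) := by
    rw [tendsto_nhdsWithin_iff]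
    refine ⟨?_, ?_⟩
    · have h1 := (Real.continuousAt_rpow_const 0 p (Or.inr hp0.le)).tendsto.mono_left
        (nhdsWithin_le_nhds (s := Ioi (0 : ℝ)))
      rwa [Real.zero_rpow hp0.ne'] at h1
    · filter_upwards [ev_pos] with δ hδ
      exact Real.rpow_pos_of_pos hδ _
  filter_upwards [ev_pos, ev_lt one_pos, ev_lt hθ₀.1,
    hlim.eventually (hvol (2 / p) (by positivity))] with δ hδ0 hδ1 hδ2 hδ3
  by_contra hcon
  push Not at hcon
  -- an interval of angles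
  have hsub : Ioc (θ₀ - δ) θ₀ ⊆ Ang ψ c₀ (δ ^ p) := by
    intro θ hθ
    refine ⟨⟨by linarith [hθ.1], hθ.2.trans hθ₀.2⟩, F (exp (θ * I)), ?_, ?_⟩
    · rw [mem_ball, dist_eq_norm, ← hFζ]
      apply hcon
      · exact Complex.norm_exp_ofReal_mul_I θ
      · rw [← hθζ]
        have h1 : exp (θ * I) - exp (θ₀ * I) = exp (θ₀ * I) * (exp (I * ((θ - θ₀ : ℝ) : ℂ)) - 1) := by
          rw [mul_sub, ← Complex.exp_add, mul_one]
          congr 2
          push_cast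
          ring
        rw [h1, norm_mul, Complex.norm_exp_ofReal_mul_I, one_mul]
        refine (Real.norm_exp_I_mul_ofReal_sub_one_le).trans ?_
        rw [Real.norm_eq_abs, abs_le]
        constructor <;> linarith [hθ.1, hθ.2]
    · have h1 : ContinuousWithinAt F {w | 1 ≤ ‖w‖} (exp (θ * I)) :=
        hF _ (by
          show 1 ≤ ‖exp (θ * I)‖
          rw [Complex.norm_exp_ofReal_mul_I])
      have h2 : Tendsto (fun ρ : ℝ => (ρ : ℂ) * exp (θ * I)) (𝓝[>] 1)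
          (𝓝[{w | 1 ≤ ‖w‖}] (exp (θ * I))) := by
        rw [tendsto_nhdsWithin_iff]
        refine ⟨?_, ?_⟩
        · have h3 : Continuous fun ρ : ℝ => (ρ : ℂ) * exp (θ * I) := by fun_prop
          have h4 := (h3.tendsto 1).mono_left (nhdsWithin_le_nhds (s := Ioi (1 : ℝ)))
          simpa using h4
        · filter_upwards [self_mem_nhdsWithin] with ρ hρ
          have hρ' : 1 < ρ := hρ
          show 1 ≤ ‖(ρ : ℂ) * exp (θ * I)‖
          rw [norm_mul, Complex.norm_exp_ofReal_mul_I, mul_one, Complex.norm_real,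
            Real.norm_of_nonneg (by linarith)]
          exact hρ'.le
      refine (h1.tendsto.comp h2).congr' ?_
      filter_upwards [self_mem_nhdsWithin] with ρ hρ
      have hρ' : 1 < ρ := hρ
      apply hE
      rw [norm_mul, Complex.norm_exp_ofReal_mul_I, mul_one, Complex.norm_real,
        Real.norm_of_nonneg (by linarith)]
      exact hρ'
  have h1 : δ ≤ (volume (Ang ψ c₀ (δ ^ p))).toReal := by
    have h2 := ENNReal.toReal_mono (vol_Ang_ne ψ c₀ (δ ^ p)) (measure_mono hsub)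
    rw [Real.volume_Ioc, ENNReal.toReal_ofReal (by linarith)] at h2
    linarith
  have h2 := h1.trans_lt hδ3
  rw [← Real.rpow_mul hδ0.le, show p * (2 / p) = 2 by field_simp] at h2
  norm_cast at h2
  nlinarith

/-- all the flatness properties follow from Green's function -/
theorem not_big_flat (hd : 2 ≤ d) (hψ : IsExteriorMap (multibrotSet d) ψ) (hc : c₀ ∈ multibrotSet d)
    (h : ∀ κ : ℝ, 0 < κ → ¬ Big ψ κ c₀) :
    (∀ κ : ℝ, 0 < κ → ∀ᶠ r : ℝ in 𝓝[>] 0, (volume (Ang ψ c₀ r)).toReal < r ^ κ ∧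
      sSup {x | ∃ w : ℂ, 1 < ‖w‖ ∧ ‖ψ w - c₀‖ ≤ r ∧ Real.log ‖w‖ = x} < r ^ κ) ∧
    (∀ a : ℝ, 0 < a → ∀ᶠ n : ℕ in atTop, ‖deriv (P d n) c₀‖ < Real.exp (a * n)) ∧
    ∀ F : ℂ → ℂ, ContinuousOn F {w : ℂ | 1 ≤ ‖w‖} → (∀ w : ℂ, 1 < ‖w‖ → F w = ψ w) →
      ∀ ζ : ℂ, ‖ζ‖ = 1 → F ζ = c₀ → ∀ α : ℝ, 0 < α → ∀ᶠ δ : ℝ in 𝓝[>] 0,
        ∃ ξ : ℂ, ‖ξ‖ = 1 ∧ ‖ξ - ζ‖ ≤ δ ∧ δ ^ α ≤ ‖F ξ - F ζ‖ := by
  have hvol : ∀ κ : ℝ, 0 < κ → ∀ᶠ r : ℝ in 𝓝[>] 0, (volume (Ang ψ c₀ r)).toReal < r ^ κ := by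
    intro κ hκ
    by_contra hcon
    rw [not_eventually] at hcon
    exact h κ hκ (big_of_vol hd hψ hc hκ (hcon.mono fun r hr => not_lt.1 hr))
  refine ⟨fun κ hκ => (hvol κ hκ).and ?_, ?_, ?_⟩
  · by_contra hcon
    rw [not_eventually] at hcon
    exact h κ hκ (big_of_green (hcon.mono fun r hr => not_lt.1 hr))
  · intro a ha
    by_contra hcon
    rw [not_eventually] at hcon
    have hlogd : 0 < Real.log d := Real.log_pos (by exact_mod_cast (by omega : 1 < d))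
    exact h ((Real.log d + 1) / a) (by positivity) (big_of_deriv hd hψ hc (a := a) (by positivity)
      (by rw [div_mul_cancel₀ _ ha.ne']; linarith) (hcon.mono fun n hn => not_lt.1 hn))
  · intro F hF hE ζ hζ hFζ α hα
    exact loop_flat hvol hF hE hζ hFζ hα

end Pool.Agent.Y736.RN
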