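import Pool.Agent.Y736.RN.H
import Pool.Agent.Y736.HL3

set_option autoImplicit false

/-! # Infinitely renormalizable parameters with a priori bounds -/

namespace Pool.Agent.Y736.RN

open Complex Filter Topology Set Metric MeasureTheory Pool.Agent.H713R2
open N62a1eb23
open Pool.Agent.H712R2 (P P_succ P_one P_zero fc continuous_P)
open Pool.Agent.Y736.HD (Ang vol_Ang_ne ev_lt ev_pos GS)
open Pool.Agent.Y736.HL (LL LL_nonneg LL_self LL_mul LL_le norm_deriv_iter)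

theorem LL_of_mult {c : ℂ} (hc : c ∈ multibrotSet 2) {N : ℕ} (hN : 1 ≤ N) {L : ℝ} (hL : 1 ≤ L)
    (h : ∀ i, LL c (N * i) (N * i + N) ≤ L ^ N) :
    ∃ C : ℝ, 0 < C ∧ ∀ m n, m ≤ n → LL c m n ≤ C * L ^ (n - m) := by
  have h1 : ∀ i k, LL c (N * i) (N * (i + k)) ≤ L ^ (N * k) := by
    intro i k
    induction k with
    | zero => simp [LL_self]
    | succ k ih =>
      rw [← LL_mul c (k := N * (i + k)) (Nat.mul_le_mul_left _ (by omega))
        (Nat.mul_le_mul_left _ (by omega))]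
      have h2 := h (i + k)
      rw [show N * (i + k) + N = N * (i + (k + 1)) by ring] at h2
      calc _ ≤ L ^ (N * k) * L ^ N := mul_le_mul ih h2 (LL_nonneg _ _ _) (by positivity)
        _ = L ^ (N * (k + 1)) := by rw [← pow_add]; ring_nf
  have h4 : ∀ m n, m ≤ n → n ≤ m + N → LL c m n ≤ 4 ^ N := by
    intro m n _ hn
    refine (LL_le c hc).trans ?_
    exact pow_le_pow_right₀ (by norm_num) (by omega)
  refine ⟨4 ^ N * 4 ^ N, by positivity, ?_⟩
  intro m n hmn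
  have hLk : ∀ k, (1 : ℝ) ≤ L ^ k := fun k => one_le_pow₀ hL
  have e4 : (1 : ℝ) ≤ 4 ^ N := one_le_pow₀ (by norm_num)
  have hm1 := Nat.div_add_mod m N
  have hm2 := Nat.mod_lt m hN
  have hn1 := Nat.div_add_mod n N
  have hn2 := Nat.mod_lt n hN
  obtain ⟨a, ha⟩ : ∃ a, a = m / N + 1 := ⟨_, rfl⟩
  obtain ⟨b, hb⟩ : ∃ b, b = n / N := ⟨_, rfl⟩
  have hNa : N * a = N * (m / N) + N := by rw [ha]; ring
  rw [← hb] at hn1
  rcases le_or_gt a b with hab | hab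
  · obtain ⟨k, rfl⟩ := Nat.exists_eq_add_of_le hab
    have h5 : N * a ≤ N * (a + k) := Nat.mul_le_mul_left _ (by omega)
    rw [← LL_mul c (k := N * a) (by omega) (by omega),
      ← LL_mul c (m := N * a) (k := N * (a + k)) h5 (by omega)]
    have h6 := h4 m (N * a) (by omega) (by omega)
    have h7 := h1 a k
    have h8 := h4 (N * (a + k)) n (by omega) (by omega)
    have h9 : L ^ (N * k) ≤ L ^ (n - m) := by
      apply pow_le_pow_right₀ hL
      have : N * (a + k) = N * a + N * k := by ring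
      omega
    calc _ ≤ 4 ^ N * (L ^ (N * k) * 4 ^ N) := by
          apply mul_le_mul h6 _ (mul_nonneg (LL_nonneg _ _ _) (LL_nonneg _ _ _)) (by positivity)
          exact mul_le_mul h7 h8 (LL_nonneg _ _ _) (by positivity)
      _ ≤ 4 ^ N * (L ^ (n - m) * 4 ^ N) := by gcongr
      _ = _ := by ring
  · have h5 : n ≤ m + N := by
      have : N * (b + 1) ≤ N * a := Nat.mul_le_mul_left _ (by omega)
      have h6 : N * (b + 1) = N * b + N := by ring
      omega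
    refine (h4 m n hmn h5).trans ?_
    have := hLk (n - m)
    calc (4 : ℝ) ^ N ≤ 4 ^ N * 4 ^ N := by nlinarith
      _ ≤ 4 ^ N * 4 ^ N * L ^ (n - m) := by
        apply le_mul_of_one_le_right (by positivity) this

/-- bounded geometry bounds the derivative along the critical orbit -/
theorem deriv_le {c : ℂ} {p : ℕ} {U : Set ℂ} {C r : ℝ} (hr : 0 < r)
    (hball : ∀ n : ℕ, ball (P 2 (n * p) c) r ⊆ U)
    (hdiam : ∀ z ∈ U, ∀ z' ∈ U, ‖(fc 2 c)^[p] z - (fc 2 c)^[p] z'‖ ≤ C * r) (i : ℕ) :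
    LL c (p * i) (p * i + p) ≤ C := by
  rw [← norm_deriv_iter]
  have h1 : MapsTo ((fc 2 c)^[p]) (ball (P 2 (p * i) c) r)
      (closedBall ((fc 2 c)^[p] (P 2 (p * i) c)) (C * r)) := by
    intro z hz
    have hb := hball i
    rw [Nat.mul_comm] at hb
    rw [mem_closedBall, dist_eq_norm]
    exact hdiam z (hb hz) _ (hb (mem_ball_self hr))
  have h2 := Complex.norm_deriv_le_div_of_mapsTo_ball
    (diff_it_y 2 p c).differentiableOn h1 hr
  rwa [mul_div_assoc, div_self hr.ne', mul_one] at h2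

/-- **No exceptional parameters with a priori bounds.** -/
theorem not_big_of_bounds {ψ : ℂ → ℂ} (hψ : IsExteriorMap (multibrotSet 2) ψ) {c : ℂ}
    (hc : c ∈ multibrotSet 2) {C : ℝ} (hC : 0 ≤ C)
    (h : {p : ℕ | ∃ (U : Set ℂ) (r : ℝ), 0 < r ∧ (∀ n : ℕ, ball (P 2 (n * p) c) r ⊆ U) ∧
      ∀ z ∈ U, ∀ z' ∈ U, ‖(fc 2 c)^[p] z - (fc 2 c)^[p] z'‖ ≤ C * r}.Infinite) :
    ∀ κ : ℝ, 0 < κ → ¬ Big ψ κ c := by
  intro κ hκ hB
  have hlogC : 0 < Real.log (C + 2) := Real.log_pos (by linarith)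
  have hlog2 : 0 < Real.log 2 := Real.log_pos (by norm_num)
  obtain ⟨k, hk⟩ := exists_nat_gt ((κ + 1) * Real.log (C + 2) / Real.log 2)
  obtain ⟨p, ⟨U, r, hr, hball, hdiam⟩, hpk⟩ := h.exists_gt k
  have hp : 1 ≤ p := by omega
  have hpR : (0 : ℝ) < p := by exact_mod_cast hp
  obtain ⟨L, hL⟩ : ∃ L : ℝ, L = (C + 2) ^ (1 / (p : ℝ)) := ⟨_, rfl⟩
  have hL1 : 1 < L := by
    rw [hL]
    exact Real.one_lt_rpow (by linarith) (by positivity)
  have hLp : L ^ p = C + 2 := by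
    rw [hL, ← Real.rpow_natCast, ← Real.rpow_mul (by linarith), one_div, inv_mul_cancel₀ hpR.ne',
      Real.rpow_one]
  obtain ⟨C₁, hC₁, hD⟩ := LL_of_mult hc hp hL1.le (fun i => by
    rw [hLp]
    exact (deriv_le hr hball hdiam i).trans (by linarith))
  obtain ⟨K, hK, hup⟩ := Pool.Agent.Y736.HL.upper_pow hc hL1 hC₁ hD
  have hlogL : Real.log L = Real.log (C + 2) / p := by
    rw [hL, Real.log_rpow (by linarith)]
    ring
  obtain ⟨s, hs⟩ : ∃ s, s = Real.log 2 / Real.log L := ⟨_, rfl⟩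
  have hsκ : κ + 1 < s := by
    rw [hs, hlogL, div_div_eq_mul_div, lt_div_iff₀ hlogC]
    rw [div_lt_iff₀ hlog2] at hk
    have h1 : (k : ℝ) < p := by exact_mod_cast hpk
    nlinarith
  rw [← hs] at hup
  obtain ⟨η, hη, hf⟩ := hB
  obtain ⟨δ, hδ, hgc⟩ := HG.green_cont (d := 2) le_rfl hc hlog2
  have hsmall : ∀ᶠ r : ℝ in 𝓝[>] 0, K * r < η := by
    have h1 : Tendsto (fun r : ℝ => K * r) (𝓝[>] 0) (𝓝 (K * 0)) :=
      ((by fun_prop : Continuous fun r : ℝ => K * r).tendsto 0).mono_left nhdsWithin_le_nhds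
    rw [mul_zero] at h1
    exact h1.eventually (gt_mem_nhds hη)
  obtain ⟨ρ, ⟨w, hw, hwρ, hwη⟩, hρ0, hρ1, hρ2, hρ3⟩ := (hf.and_eventually
    (ev_pos.and ((ev_lt one_pos).and ((ev_lt hδ).and hsmall)))).exists
  have hw0 : 0 < ‖w‖ := by linarith
  have hw2 : ‖w‖ ≤ 2 := by
    have h1 := hgc ψ hψ w hw (hwρ.trans hρ2.le)
    exact (Real.log_le_log_iff hw0 (by norm_num)).1 h1
  have h1 := hup ψ hψ w hw hw2
  have h2 : Real.log ‖w‖ ≤ ‖w‖ - 1 := Real.log_le_sub_one_of_pos hw0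
  have h3 : ‖ψ w - c‖ ^ s ≤ ρ ^ s := Real.rpow_le_rpow (norm_nonneg _) hwρ (by linarith)
  have h4 : ρ ^ s ≤ ρ ^ (κ + 1) := Real.rpow_le_rpow_of_exponent_ge hρ0 hρ1.le hsκ.le
  rw [Real.rpow_add hρ0, Real.rpow_one] at h4
  have h5 : 0 < ρ ^ κ := Real.rpow_pos_of_pos hρ0 _
  have h6 : η * ρ ^ κ ≤ K * (ρ ^ κ * ρ) := by
    calc η * ρ ^ κ ≤ Real.log ‖w‖ := hwη
      _ ≤ ‖w‖ - 1 := h2
      _ ≤ K * ‖ψ w - c‖ ^ s := h1
      _ ≤ K * (ρ ^ κ * ρ) := by
        apply mul_le_mul_of_nonneg_left (h3.trans h4) hK.le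
  have h7 : K * (ρ ^ κ * ρ) < η * ρ ^ κ := by
    calc K * (ρ ^ κ * ρ) = K * ρ * ρ ^ κ := by ring
      _ < η * ρ ^ κ := by gcongr
  linarith

end Pool.Agent.Y736.RN
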