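import Pool.Agent.Y736.RN.I

set_option autoImplicit false

/-! # Infinitely renormalizable parameters with a priori bounds, all degrees -/

namespace Pool.Agent.Y736.RN

open Complex Filter Topology Set Metric MeasureTheory Pool.Agent.H713R2
open N62a1eb23
open Pool.Agent.H712R2 (P P_succ P_one P_zero fc continuous_P mem_multibrot_iff)
open Pool.Agent.Y736.HD (Ang vol_Ang_ne ev_lt ev_pos GS)

variable {d : ℕ} {ψ : ℂ → ℂ}

/-- bounded geometry bounds the derivative along the critical orbit -/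
theorem deriv_le' {c : ℂ} {p : ℕ} {U : Set ℂ} {C r : ℝ} (hr : 0 < r)
    (hball : ∀ n : ℕ, ball (P d (n * p) c) r ⊆ U)
    (hdiam : ∀ z ∈ U, ∀ z' ∈ U, ‖(fc d c)^[p] z - (fc d c)^[p] z'‖ ≤ C * r) (i : ℕ) :
    ‖deriv ((fc d c)^[p]) (P d (p * i) c)‖ ≤ C := by
  have h1 : MapsTo ((fc d c)^[p]) (ball (P d (p * i) c) r)
      (closedBall ((fc d c)^[p] (P d (p * i) c)) (C * r)) := by
    intro z hz
    have hb := hball i
    rw [Nat.mul_comm] at hb
    rw [mem_closedBall, dist_eq_norm]
    exact hdiam z (hb hz) _ (hb (mem_ball_self hr))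
  have h2 := Complex.norm_deriv_le_div_of_mapsTo_ball
    (diff_it_y d p c).differentiableOn h1 hr
  rwa [mul_div_assoc, div_self hr.ne', mul_one] at h2

/-- orbits of nearby parameters stay close for a long time -/
theorem not_fast (hd : 2 ≤ d) {c : ℂ} (hc : c ∈ multibrotSet d) {p : ℕ} {C : ℝ} (hC : 0 ≤ C)
    (hder : ∀ i, ‖deriv ((fc d c)^[p]) (P d (p * i) c)‖ ≤ C) :
    ¬ Fast d p (ball 0 3) (Real.log (C + 3)) c := by
  have hb := (mem_multibrot_iff hd c).1 hc
  -- Lipschitz in the parameter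
  obtain ⟨M, hM⟩ : ∃ M : ℝ, ∀ q ∈ closedBall c 2 ×ˢ closedBall (0 : ℂ) 3,
      ‖(fc d q.1)^[p] q.2‖ ≤ M :=
    ((isCompact_closedBall c 2).prod (isCompact_closedBall (0 : ℂ) 3)).exists_bound_of_continuousOn
      (cont_it d p).continuousOn
  have hM0 : 0 ≤ M := (norm_nonneg _).trans (hM (c, 0) ⟨mem_closedBall_self (by norm_num),
    mem_closedBall_self (by norm_num)⟩)
  have hLip : ∀ c' ∈ closedBall c 1, ∀ z ∈ closedBall (0 : ℂ) 3,
      ‖(fc d c')^[p] z - (fc d c)^[p] z‖ ≤ 2 * M * ‖c' - c‖ := by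
    intro c' hc' z hz
    have h1 : ∀ x ∈ closedBall c 1, ‖deriv (fun c => (fc d c)^[p] z) x‖ ≤ 2 * M := by
      intro x hx
      have h2 : MapsTo (fun c => (fc d c)^[p] z) (ball x 1)
          (closedBall ((fc d x)^[p] z) (2 * M)) := by
        intro y hy
        rw [mem_closedBall, dist_eq_norm]
        have h3 := hM (y, z) ⟨by
          rw [mem_closedBall] at hx ⊢
          rw [mem_ball] at hy
          have := dist_triangle y x c
          linarith, hz⟩
        have h4 := hM (x, z) ⟨closedBall_subset_closedBall (by norm_num) hx, hz⟩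
        have := norm_sub_le ((fc d y)^[p] z) ((fc d x)^[p] z)
        simp only at h3 h4
        linarith
      have h3 := Complex.norm_deriv_le_div_of_mapsTo_ball
        (diff_it_c d p z).differentiableOn h2 one_pos
      rwa [div_one] at h3
    exact (convex_closedBall c 1).norm_image_sub_le_of_norm_deriv_le
      (fun x _ => (diff_it_c d p z) x) h1 (mem_closedBall_self (by norm_num)) hc'
  -- uniform continuity of the derivative
  have hdc : Continuous (deriv ((fc d c)^[p])) :=
    ((diff_it_y d p c).contDiff (n := 1)).continuous_deriv le_rfl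
  have huc := (isCompact_closedBall (0 : ℂ) 3).uniformContinuousOn_of_continuous hdc.continuousOn
  rw [Metric.uniformContinuousOn_iff] at huc
  obtain ⟨η, hη, huc⟩ := huc 1 one_pos
  obtain ⟨t, ht⟩ : ∃ t, t = min (η / 2) 1 := ⟨_, rfl⟩
  have ht0 : 0 < t := by rw [ht]; positivity
  have ht1 : t ≤ 1 := by rw [ht]; exact min_le_right _ _
  have htη : t < η := by
    have := min_le_left (η / 2) 1
    rw [ht]; linarith
  have hstep : ∀ (i : ℕ) (z : ℂ), ‖z - P d (p * i) c‖ ≤ t →
      ‖(fc d c)^[p] z - (fc d c)^[p] (P d (p * i) c)‖ ≤ (C + 1) * ‖z - P d (p * i) c‖ := by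
    intro i z hz
    have hsub : closedBall (P d (p * i) c) t ⊆ closedBall (0 : ℂ) 3 := by
      intro y hy
      rw [mem_closedBall, dist_eq_norm] at hy
      rw [mem_closedBall_zero_iff]
      have h1 := norm_add_le (y - P d (p * i) c) (P d (p * i) c)
      rw [sub_add_cancel] at h1
      have := hb (p * i)
      linarith
    have h1 : ∀ x ∈ closedBall (P d (p * i) c) t, ‖deriv ((fc d c)^[p]) x‖ ≤ C + 1 := by
      intro x hx
      have h2 := huc x (hsub hx) _ (hsub (mem_closedBall_self ht0.le)) (by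
        rw [mem_closedBall] at hx
        linarith)
      rw [dist_eq_norm] at h2
      have h3 := norm_add_le (deriv ((fc d c)^[p]) x - deriv ((fc d c)^[p]) (P d (p * i) c))
        (deriv ((fc d c)^[p]) (P d (p * i) c))
      rw [sub_add_cancel] at h3
      have := hder i
      linarith
    exact (convex_closedBall (P d (p * i) c) t).norm_image_sub_le_of_norm_deriv_le
      (fun x _ => (diff_it_y d p c) x) h1 (mem_closedBall_self ht0.le)
      (by rw [mem_closedBall, dist_eq_norm]; exact hz)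
  -- the recursion
  have hX : Real.exp (-(Real.log (C + 3))) = (C + 3)⁻¹ := by
    rw [Real.exp_neg, Real.exp_log (by linarith)]
  have hlim : Tendsto (fun n : ℕ => (2 * M + 1) * ((C + 2) / (C + 3)) ^ n) atTop
      (𝓝 ((2 * M + 1) * 0)) := by
    apply Tendsto.const_mul
    apply tendsto_pow_atTop_nhds_zero_of_lt_one (by positivity)
    rw [div_lt_one (by linarith)]
    linarith
  rw [mul_zero] at hlim
  intro hf
  obtain ⟨n, ⟨c', hc', i, hi, hiV⟩, hn⟩ := (hf.and_eventually
    (hlim.eventually (gt_mem_nhds ht0))).exists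
  apply hiV
  have hs : ‖c' - c‖ ≤ ((C + 3)⁻¹) ^ n := by
    rw [mem_closedBall, dist_eq_norm] at hc'
    refine hc'.trans (le_of_eq ?_)
    rw [← hX, ← Real.exp_nat_mul]
    congr 1
    ring
  have hs1 : ‖c' - c‖ ≤ 1 := hs.trans (pow_le_one₀ (by positivity)
    (inv_le_one_of_one_le₀ (by linarith)))
  have hbd : ∀ k, k ≤ n → (2 * M + 1) * ‖c' - c‖ * (C + 2) ^ k ≤ t := by
    intro k hk
    have h1 : (C + 2) ^ k ≤ (C + 2) ^ n := pow_le_pow_right₀ (by linarith) hk
    calc (2 * M + 1) * ‖c' - c‖ * (C + 2) ^ k ≤ (2 * M + 1) * ((C + 3)⁻¹) ^ n * (C + 2) ^ n := by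
          gcongr
      _ = (2 * M + 1) * ((C + 2) / (C + 3)) ^ n := by
          rw [mul_assoc, ← mul_pow, inv_mul_eq_div]
      _ ≤ t := hn.le
  have key : ∀ k, k ≤ n → ‖P d (p * k) c' - P d (p * k) c‖ ≤
      (2 * M + 1) * ‖c' - c‖ * (C + 2) ^ k := by
    intro k
    induction k with
    | zero =>
      intro _
      rw [Nat.mul_zero, P_zero, P_zero, sub_zero, norm_zero]
      positivity
    | succ k ih =>
      intro hk
      have h1 := ih (by omega)
      have h2 := h1.trans (hbd k (by omega))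
      have h3 : P d (p * (k + 1)) c' = (fc d c')^[p] (P d (p * k) c') := by
        rw [iter_P]; congr 1; ring
      have h4 : P d (p * (k + 1)) c = (fc d c)^[p] (P d (p * k) c) := by
        rw [iter_P]; congr 1; ring
      rw [h3, h4]
      have h5 := hstep k _ h2
      have h6 := hLip c' (by rw [mem_closedBall, dist_eq_norm]; exact hs1) (P d (p * k) c') (by
        rw [mem_closedBall_zero_iff]
        have h7 := norm_add_le (P d (p * k) c' - P d (p * k) c) (P d (p * k) c)
        rw [sub_add_cancel] at h7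
        have := hb (p * k)
        linarith)
      have h8 : ‖(fc d c')^[p] (P d (p * k) c') - (fc d c)^[p] (P d (p * k) c)‖ ≤
          ‖(fc d c')^[p] (P d (p * k) c') - (fc d c)^[p] (P d (p * k) c')‖ +
          ‖(fc d c)^[p] (P d (p * k) c') - (fc d c)^[p] (P d (p * k) c)‖ := by
        have := norm_add_le ((fc d c')^[p] (P d (p * k) c') - (fc d c)^[p] (P d (p * k) c'))
          ((fc d c)^[p] (P d (p * k) c') - (fc d c)^[p] (P d (p * k) c))
        rwa [sub_add_sub_cancel] at this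
      have h9 : (1 : ℝ) ≤ (C + 2) ^ k := one_le_pow₀ (by linarith)
      have h10 : 0 ≤ ‖c' - c‖ := norm_nonneg _
      have h11 : (C + 1) * ‖P d (p * k) c' - P d (p * k) c‖ ≤
          (C + 1) * ((2 * M + 1) * ‖c' - c‖ * (C + 2) ^ k) := by gcongr
      have h12 : 2 * M * ‖c' - c‖ ≤ (2 * M + 1) * ‖c' - c‖ * (C + 2) ^ k := by
        calc 2 * M * ‖c' - c‖ ≤ (2 * M + 1) * ‖c' - c‖ := by nlinarith
          _ ≤ (2 * M + 1) * ‖c' - c‖ * (C + 2) ^ k :=
            le_mul_of_one_le_right (by positivity) h9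
      calc _ ≤ _ := h8
        _ ≤ (2 * M + 1) * ‖c' - c‖ * (C + 2) ^ k +
            (C + 1) * ((2 * M + 1) * ‖c' - c‖ * (C + 2) ^ k) := by linarith
        _ = (2 * M + 1) * ‖c' - c‖ * (C + 2) ^ (k + 1) := by ring
  have h1 := (key i hi).trans (hbd i hi)
  rw [mem_ball_zero_iff]
  have h7 := norm_add_le (P d (p * i) c' - P d (p * i) c) (P d (p * i) c)
  rw [sub_add_cancel] at h7
  have := hb (p * i)
  by_contra hcon
  push Not at hcon
  have h8 : ‖P d (p * i) c' - P d (p * i) c‖ = 1 ∧ ‖P d (p * i) c‖ = 2 := by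
    constructor <;> linarith
  have h9 := (key i hi).trans (hbd i hi)
  have h10 := hn
  have h11 : (2 * M + 1) * ‖c' - c‖ * (C + 2) ^ i < 1 := by
    have h12 : (C + 2) ^ i ≤ (C + 2) ^ n := pow_le_pow_right₀ (by linarith) hi
    calc (2 * M + 1) * ‖c' - c‖ * (C + 2) ^ i ≤ (2 * M + 1) * ((C + 3)⁻¹) ^ n * (C + 2) ^ n := by
          gcongr
      _ = (2 * M + 1) * ((C + 2) / (C + 3)) ^ n := by
          rw [mul_assoc, ← mul_pow, inv_mul_eq_div]
      _ < t := hn
      _ ≤ 1 := ht1
  have h12 := key i hi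
  linarith

/-- **No exceptional parameters with a priori bounds, all degrees.** -/
theorem not_big_of_bounds' (hd : 2 ≤ d) (hψ : IsExteriorMap (multibrotSet d) ψ) {c : ℂ}
    (hc : c ∈ multibrotSet d) {C : ℝ} (hC : 0 ≤ C)
    (h : {p : ℕ | ∃ (U : Set ℂ) (r : ℝ), 0 < r ∧ (∀ n : ℕ, ball (P d (n * p) c) r ⊆ U) ∧
      ∀ z ∈ U, ∀ z' ∈ U, ‖(fc d c)^[p] z - (fc d c)^[p] z'‖ ≤ C * r}.Infinite) :
    ∀ κ : ℝ, 0 < κ → ¬ Big ψ κ c := by
  intro κ hκ hB
  have hdR : (1 : ℝ) < d := by exact_mod_cast (by omega : 1 < d)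
  have hlogd : 0 < Real.log d := Real.log_pos hdR
  have hlogC : 0 < Real.log (C + 3) := Real.log_pos (by linarith)
  obtain ⟨k, hk⟩ := exists_nat_gt (Real.log (C + 3) * κ / Real.log d)
  obtain ⟨p, ⟨U, r, hr, hball, hdiam⟩, hpk⟩ := h.exists_gt k
  rw [div_lt_iff₀ hlogd] at hk
  have h1 : (k : ℝ) < p := by exact_mod_cast hpk
  exact not_fast hd hc hC (deriv_le' hr hball hdiam) (fast_of_big hd (by omega) hψ hκ hlogC
    (by nlinarith) hB isBounded_ball)

end Pool.Agent.Y736.RN
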