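import Pool.Agent.Y736.RN.J

set_option autoImplicit false

/-! # Every parameter of the connectedness locus is renormalizable of period one -/

namespace Pool.Agent.Y736.RN

open Complex Filter Topology Set Metric MeasureTheory Pool.Agent.H713R2
open N62a1eb23
open Pool.Agent.H712R2 (P P_succ P_one P_zero fc continuous_P mem_multibrot_iff)

variable {d : ℕ}

theorem ren_one (hd : 2 ≤ d) {c : ℂ} (hc : c ∈ multibrotSet d) : Ren d c 1 := by
  have hb := (mem_multibrot_iff hd c).1 hc
  have hc2 : ‖c‖ ≤ 2 := by
    have := hb 1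
    rwa [P_one hd] at this
  have hfc : (fc d c)^[1] = fc d c := Function.iterate_one _
  have hcont : Continuous (fc d c) := by
    have := cont_it_y d 1 c
    rwa [hfc] at this
  obtain ⟨U, hU⟩ : ∃ U : Set ℂ, U = fc d c ⁻¹' ball 0 4 := ⟨_, rfl⟩
  have hsmall : ∀ z : ℂ, ‖fc d c z‖ ≤ 4 → ‖z‖ < 3 := by
    intro z hz
    by_contra hcon
    push Not at hcon
    have h1 : ‖z ^ d‖ ≤ 6 := by
      have h2 := norm_sub_le (fc d c z) c
      have h3 : fc d c z - c = z ^ d := by simp [fc]
      rw [h3] at h2
      linarith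
    rw [norm_pow] at h1
    have h2 : (3 : ℝ) ^ 2 ≤ ‖z‖ ^ 2 := by gcongr
    have h3 : ‖z‖ ^ 2 ≤ ‖z‖ ^ d := pow_le_pow_right₀ (by linarith) hd
    norm_num at h2
    linarith
  have himg : fc d c '' U = ball 0 4 := by
    apply Subset.antisymm
    · rintro _ ⟨z, hz, rfl⟩
      rw [hU] at hz
      exact hz
    · intro w hw
      obtain ⟨z, hz⟩ := IsAlgClosed.exists_pow_nat_eq (w - c) (n := d) (by omega)
      have h1 : fc d c z = w := by
        simp [fc, hz]
      refine ⟨z, ?_, h1⟩
      rw [hU]
      show fc d c z ∈ ball 0 4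
      rw [h1]
      exact hw
  have hclos : closure U ⊆ {z | ‖fc d c z‖ ≤ 4} := by
    apply closure_minimal _ (isClosed_le hcont.norm continuous_const)
    intro z hz
    rw [hU] at hz
    exact (mem_ball_zero_iff.1 hz).le
  refine ⟨U, ?_, ?_, ?_⟩
  · rw [hfc]
    refine ⟨?_, ?_, ?_, ?_, ?_⟩
    · rw [hU]
      exact isOpen_ball.preimage hcont
    · apply (isBounded_closedBall (x := (0 : ℂ)) (r := 3)).subset
      intro z hz
      rw [mem_closedBall_zero_iff]
      exact (hsmall z (hclos (subset_closure hz))).le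
    · rw [himg]
      intro z hz
      rw [mem_ball_zero_iff]
      linarith [hsmall z (hclos hz)]
    · intro K hK hKc
      rw [himg] at hK
      have h1 : {z | z ∈ U ∧ fc d c z ∈ K} = fc d c ⁻¹' K := by
        ext z
        constructor
        · exact fun h => h.2
        · intro h
          refine ⟨?_, h⟩
          rw [hU]
          exact hK h
      rw [h1]
      apply Metric.isCompact_of_isClosed_isBounded (hKc.isClosed.preimage hcont)
      apply (isBounded_closedBall (x := (0 : ℂ)) (r := 3)).subset
      intro z hz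
      rw [mem_closedBall_zero_iff]
      exact (hsmall z (mem_ball_zero_iff.1 (hK hz)).le).le
    · intro w _
      have h1 : {z | z ∈ U ∧ fc d c z = w} ⊆ ((Polynomial.nthRoots d (w - c)).toFinset : Set ℂ) := by
        rintro z ⟨_, h2⟩
        rw [Finset.mem_coe, Multiset.mem_toFinset, Polynomial.mem_nthRoots (by omega)]
        rw [← h2]
        simp [fc]
      refine (encard_le_encard h1).trans ?_
      rw [Set.encard_coe_eq_coe_finsetCard]
      exact_mod_cast (Multiset.toFinset_card_le _).trans (Polynomial.card_nthRoots d (w - c))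
  · rw [hU]
    show fc d c 0 ∈ ball 0 4
    have : fc d c 0 = c := by
      simp [fc, show d ≠ 0 by omega]
    rw [this, mem_ball_zero_iff]
    linarith
  · intro n _
    rw [hU]
    show fc d c (P d (n * 1) c) ∈ ball 0 4
    have h1 : fc d c (P d (n * 1) c) = P d (n * 1 + 1) c := by
      rw [P_succ]
      rfl
    rw [h1, mem_ball_zero_iff]
    linarith [hb (n * 1 + 1)]

end Pool.Agent.Y736.RN
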