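import Mathlib

set_option autoImplicit false

/-! # Renormalizable parameters: statements -/

namespace Pool.Agent.Y736.RN

open Filter Topology Set Metric MeasureTheory

/-- local product over the simple zeros of an analytic family -/
def S_LP : Prop :=
  ∀ (H : ℂ → ℂ → ℂ) (O : Set (ℂ × ℂ)) (c₀ : ℂ) (r : ℝ),
    ContDiff ℂ ⊤ (fun q : ℂ × ℂ => H q.1 q.2) → IsOpen O → 0 < r →
    IsCompact {q : ℂ × ℂ | q ∈ O ∧ q.1 ∈ closedBall c₀ r ∧ H q.1 q.2 = 0} →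
    (∀ y : ℂ, (c₀, y) ∈ O → H c₀ y = 0 → deriv (H c₀) y ≠ 0) →
    (∀ᶠ c in 𝓝 c₀, {y : ℂ | (c, y) ∈ O ∧ H c y = 0}.Finite ∧
      {y : ℂ | (c, y) ∈ O ∧ H c y = 0}.ncard = {y : ℂ | (c₀, y) ∈ O ∧ H c₀ y = 0}.ncard) ∧
    DifferentiableAt ℂ (fun c => ∏ᶠ y ∈ {y : ℂ | (c, y) ∈ O ∧ H c y = 0}, y) c₀

/-- number of zeros of a bounded function -/
def S_JZ : Prop :=
  ∀ (A : ℂ → ℂ) (c' : ℂ) (R M m : ℝ) (E : Set ℂ) (Z : Finset ℂ), 0 < R → E.Finite →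
    DifferentiableOn ℂ A (ball c' R \ E) → (∀ c ∈ ball c' R \ E, ‖A c‖ ≤ M) →
    c' ∉ E → m ≤ ‖A c'‖ → (Z : Set ℂ) ⊆ ball c' (R / 3) →
    (∀ z ∈ Z, Tendsto A (𝓝[≠] z) (𝓝 0)) → m * 2 ^ Z.card ≤ M

/-- quantitative surjectivity -/
def S_QS : Prop :=
  ∀ R δ : ℝ, 0 < R → 0 < δ → ∃ δ₂ : ℝ, 0 < δ₂ ∧ ∀ (F : ℂ → ℂ) (c₀ : ℂ) (ρ : ℝ), 0 < ρ →
    DifferentiableOn ℂ F (ball c₀ (2 * ρ)) → (∀ c ∈ ball c₀ (2 * ρ), ‖F c‖ ≤ R) →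
    (∃ c ∈ closedBall c₀ ρ, δ ≤ ‖F c - F c₀‖) →
    ∀ w : ℂ, ‖w - F c₀‖ < δ₂ → ∃ c ∈ ball c₀ (2 * ρ), F c = w

/-- dimension of a limsup set -/
def S_DC : Prop :=
  ∀ (D X K C : ℝ) (J : ℕ) (Z : ℕ → Set ℂ) (A : Set ℂ), 1 < D → 0 < X →
    (∀ j ≥ J, (Z j).Finite ∧ ((Z j).ncard : ℝ) ≤ C * D ^ j) →
    (∀ a ∈ A, ∃ᶠ j : ℕ in atTop, ∃ z ∈ Z j, ‖a - z‖ ≤ K * Real.exp (-(X * j))) →
    dimH A ≤ ENNReal.ofReal (Real.log D / X)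

/-- good scales -/
def S_SEQ : Prop :=
  ∀ (r : ℕ → ℝ) (X X' : ℝ) (b : ℕ), (∀ j, 0 < r j) → Antitone r → 0 < X' → X' < X →
    2 < Real.exp (X' * b) → (∃ᶠ n : ℕ in atTop, r n ≤ Real.exp (-(X * n))) →
    ∃ᶠ j : ℕ in atTop, b ≤ j ∧ r j ≤ Real.exp (-(X' * j)) ∧ 2 * r j < r (j - b)

end Pool.Agent.Y736.RN
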